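import Pool.Agent.R807.Pos
import Pool.Agent.R807.Ratio2
import Pool.Agent.W613.QAT.Cont
import Pool.Agent.W193.QAT.R1
import Pool.Agent.W591.QAT.Reid
import Pool.Agent.W683.QAT.Slide
import Pool.Agent.H550R3.Jones.SanSkein699

/-!
# The Kashaev invariants of amphicheiral two-bridge knots at odd roots of unity

For a tangle `X` let `X*` be its image under the point reflection `x ↦ -x` of space.  If `T` is a
tangle with one end at the bottom and three ends at the top then `T* T`, cut open at the bottom and
at the top, is equal to its image under the point reflection.  If it is a knot `K` then `K` is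
amphicheiral.  The Kashaev invariants of all these knots are real and not negative, and they are
positive if `T` is a cup followed by a 3-braid.

These are the two-bridge knots `C(a_1, …, a_r, a_r, …, a_1)`, that is, all amphicheiral two-bridge
knots (Schubert; for example `4_1 = C(2, 2)`, `6_3 = C(2, 1, 1, 2)`, `8_3 = C(4, 4)`,
`8_9 = C(3, 1, 1, 3)`, `8_12 = C(2, 2, 2, 2)`, and for every even `c ≥ 4` there is one with `c`
crossings).  They are hyperbolic (Menasco; two-bridge torus knots are not amphicheiral).

Everything is defined from the R-matrix of `U_q(sl_2)`, with `v = q^{1/2}` and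
`{k} = v^k - v^{-k}`.  First the `N`-coloured invariant `jones` of diagrams of unoriented
(1,1)-tangles is defined, read off at the highest weight vector.  Under the first Reidemeister move it
changes by `(-1)^{N-1} v^{∓(N^2-1)}`, and if a strand slides over or under a cup or a cap by
`v^{∓(N^2-1)}`.  For a knot this is corrected by the factor `(-1)^{(N-1) c} v^{(N^2-1) s}`, `c` the
number of crossings and `s` the sum of the signs `σ` of those crossings at which the two strands are
directed oppositely (a curl changes `c` by `1` and `s` by `±1`; if a strand passes a cup or a cap then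
two crossings appear, and the strands are directed oppositely at exactly one of them; the other moves
change neither `s` nor the parity of `c`): this gives the coloured Jones polynomial of the knot,
without any indeterminacy, with value `1` for the unknot.  The Kashaev invariant is its value at
`v = exp (π i / N)`, that is `q = exp (2 π i / N)`.
-/

set_option autoImplicit false

namespace Pool.Agent.Results.MP_b30479_gt.AchiralTwoBridgeOdd

open Finset Filter Topology

/-! ### The coloured Jones polynomial -/

/-- `{n} = v^n - v^{-n}` -/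
noncomputable def br (v : ℂ) (n : ℤ) : ℂ := v ^ n - v ^ (-n)

/-- `{n}! = {1} {2} ⋯ {n}` -/
noncomputable def brf (v : ℂ) (n : ℕ) : ℂ := ∏ j ∈ range n, br v ((j : ℤ) + 1)

/-- The positive crossing: the R-matrix of `U_q(sl_2)` on `V_N ⊗ V_N`, `V_N` with basis
`e_0, …, e_{N-1}`, times the framing factor `v^{-(N^2-1)/2}`; `crossP N v p q` is the coefficient
of `e_{p.1} ⊗ e_{p.2}` in the image of `e_{q.1} ⊗ e_{q.2}`:
`e_i ⊗ e_j ↦ ∑_n v^{-(N-1)(1+i+j) + 2(i-n)(j+n) + n(n-1)/2}
({j+n}! / ({j}! {n}!)) ∏_{t<n} {N-i+t} e_{j+n} ⊗ e_{i-n}`. -/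
noncomputable def crossP (N : ℕ) (v : ℂ) : Matrix (Fin N × Fin N) (Fin N × Fin N) ℂ :=
  fun p q => if (p.1 : ℕ) + p.2 = q.1 + q.2 ∧ (q.2 : ℕ) ≤ p.1 then
    v ^ (-((N : ℤ) - 1) * (1 + (q.1 : ℕ) + (q.2 : ℕ)) + 2 * (p.1 : ℕ) * (p.2 : ℕ)) *
      v ^ (((p.1 : ℕ) - q.2) * ((p.1 : ℕ) - q.2 - 1) / 2) *
      (brf v p.1 / (brf v q.2 * brf v ((p.1 : ℕ) - q.2))) *
      ∏ t ∈ range ((p.1 : ℕ) - q.2), br v ((N : ℤ) - (q.1 : ℕ) + t)
    else 0

/-- The negative crossing, inverse of `crossP N v`:
`e_i ⊗ e_j ↦ ∑_n (-1)^n v^{(N-1)(1+i+j) - 2ij - n(n-1)/2}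
({i+n}! / ({i}! {n}!)) ∏_{t<n} {N-j+t} e_{j-n} ⊗ e_{i+n}`. -/
noncomputable def crossN (N : ℕ) (v : ℂ) : Matrix (Fin N × Fin N) (Fin N × Fin N) ℂ :=
  fun p q => if (p.1 : ℕ) + p.2 = q.1 + q.2 ∧ (q.1 : ℕ) ≤ p.2 then
    (-1) ^ ((p.2 : ℕ) - q.1) *
      v ^ (((N : ℤ) - 1) * (1 + (q.1 : ℕ) + (q.2 : ℕ)) - 2 * (q.1 : ℕ) * (q.2 : ℕ)) /
      v ^ (((p.2 : ℕ) - q.1) * ((p.2 : ℕ) - q.1 - 1) / 2) *
      (brf v p.2 / (brf v q.1 * brf v ((p.2 : ℕ) - q.1))) *
      ∏ t ∈ range ((p.2 : ℕ) - q.1), br v ((N : ℤ) - (q.2 : ℕ) + t)
    else 0

/-- The coefficients of the invariant vector `∑_k kap k e_k ⊗ e_{N-1-k}` of `V_N ⊗ V_N`: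
`kap k = (-1)^k v^{k(N-2-k)} {k}! {N-1-k}! / {N-1}!`. -/
noncomputable def kap (N : ℕ) (v : ℂ) (k : ℕ) : ℂ :=
  (-1) ^ k * v ^ ((k : ℤ) * ((N : ℤ) - 2 - k)) * (brf v k * brf v (N - 1 - k) / brf v (N - 1))

/-- The cup: the invariant vector of `V_N ⊗ V_N`. -/
noncomputable def cup (N : ℕ) (v : ℂ) (p : Fin N × Fin N) : ℂ :=
  if (p.1 : ℕ) + p.2 = N - 1 then kap N v p.1 else 0

/-- The cap: the invariant linear form on `V_N ⊗ V_N`. -/
noncomputable def cap (N : ℕ) (v : ℂ) (p : Fin N × Fin N) : ℂ :=
  if (p.1 : ℕ) + p.2 = N - 1 then (kap N v p.2)⁻¹ else 0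

/-! ### Tangle diagrams -/

/-- The pieces of a diagram.  Strands are counted from `0`, from left to right.  `cup i` creates the
strands `i` and `i + 1`, `cap i` closes the strands `i` and `i + 1`, `twist i σ m` is a twist region:
`m` crossings of the strands `i` and `i + 1`, all positive (`σ = true`) or all negative. -/
inductive Piece
  | cup (i : ℕ)
  | cap (i : ℕ)
  | twist (i : ℕ) (σ : Bool) (m : ℕ)

/-- The number of strands above a piece that has `n` strands below it. -/
def Piece.strands : Piece → ℕ → Option ℕ
  | .cup i, n => if i ≤ n then some (n + 2) else none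
  | .cap i, n => if i + 2 ≤ n then some (n - 2) else none
  | .twist i _ _, n => if i + 2 ≤ n then some n else none

/-- A diagram: the list of its pieces from bottom to top. -/
abbrev Diagram := List Piece

/-- `D` is the diagram of a tangle with `n` strands at the bottom and `k` strands at the top.  (The
closure of a (1,1)-tangle is a link, and every link arises in this way.) -/
def IsTangle (D : Diagram) (n k : ℕ) : Prop :=
  D.foldl (fun n P => n.bind P.strands) (some n) = some k

/-- The image of a piece with `n` strands below it under the point reflection `x ↦ -x` of space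
(`k` strands above it become `k` strands below its image). -/
def Piece.star : Piece → ℕ → Piece
  | .cup i, n => .cap (n - i)
  | .cap i, n => .cup (n - 2 - i)
  | .twist i σ m, n => .twist (n - 2 - i) (!σ) m

/-- `star D n` is the image `D*` of the tangle `D`, with `n` strands at the bottom, under the point
reflection `x ↦ -x` of space: the diagram is turned upside down and from left to right, and all
crossings are changed. -/
def star : Diagram → ℕ → Diagram
  | [], _ => []
  | P :: D, n => star D ((P.strands n).getD 0) ++ [P.star n]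

/-- The operator of a piece.  A vector of `V_N ⊗ ⋯ ⊗ V_N` is given by its coefficients with respect
to the basis vectors `e_{s_0} ⊗ ⋯ ⊗ e_{s_{n-1}}`, indexed by the lists `s = [s_0, …, s_{n-1}]`. -/
noncomputable def Piece.act (N : ℕ) (v : ℂ) : Piece → (List (Fin N) → ℂ) → List (Fin N) → ℂ
  | .cup i, f => fun s => match s.drop i with
      | a :: b :: r => AchiralTwoBridgeOdd.cup N v (a, b) * f (s.take i ++ r)
      | _ => 0
  | .cap i, f => fun s =>
      ∑ p : Fin N × Fin N, AchiralTwoBridgeOdd.cap N v p * f (s.take i ++ p.1 :: p.2 :: s.drop i)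
  | .twist i σ m, f => fun s => match s.drop i with
      | a :: b :: r => ∑ p : Fin N × Fin N,
          ((if σ then crossP N v else crossN N v) ^ m) (a, b) p * f (s.take i ++ p.1 :: p.2 :: r)
      | _ => 0

/-- The operator of a diagram. -/
noncomputable def run (N : ℕ) (v : ℂ) (D : Diagram) (f : List (Fin N) → ℂ) : List (Fin N) → ℂ :=
  D.foldl (fun g P => P.act N v g) f

/-- The `N`-coloured Jones polynomial of the closure of a (1,1)-tangle (unknot `= 1`; all components
coloured `N`) at `q = v^2`, up to sign and powers of `v`: the entry of the operator of the tangle at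
the highest weight vector `e_0`. -/
noncomputable def jones (N : ℕ) (D : Diagram) (v : ℂ) : ℂ :=
  if h : 0 < N then run N v D (fun s => if s = [⟨0, h⟩] then 1 else 0) [⟨0, h⟩] else 0

/-- `v_N = exp (π i / N)`, so that `q = v_N^2 = exp (2 π i / N)`. -/
noncomputable def root (N : ℕ) : ℂ := Complex.exp (Real.pi * Complex.I / N)

/-! ### Orientations -/

/-- `P.Flow a b`: the strands below the piece `P` may have the directions `a` and the strands above
it the directions `b` (`true`: upwards). -/
def Piece.Flow : Piece → List Bool → List Bool → Prop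
  | .cup i, a, b => ∃ (l r : List Bool) (x : Bool), l.length = i ∧ a = l ++ r ∧
      b = l ++ x :: (!x) :: r
  | .cap i, a, b => ∃ (l r : List Bool) (x : Bool), l.length = i ∧ a = l ++ x :: (!x) :: r ∧
      b = l ++ r
  | .twist i _ m, a, b => ∃ (l r : List Bool) (x y : Bool), l.length = i ∧ a = l ++ x :: y :: r ∧
      b = if Even m then l ++ x :: y :: r else l ++ y :: x :: r

/-- The number of crossings of a piece. -/
def Piece.crossings : Piece → ℕ
  | .twist _ _ m => m
  | _ => 0

/-- The sum of the signs `σ` of the crossings of the piece `P` if the two strands have opposite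
directions, and `0` if they have the same direction. -/
def Piece.anti : Piece → List Bool → ℤ
  | .twist i σ m, a => match a.drop i with
      | x :: y :: _ => if x = y then 0 else if σ then m else -m
      | _ => 0
  | _, _ => 0

/-- An orientation of the (1,1)-tangle `D`: `o k` are the directions of the strands below the piece
number `k` (`k = 0, 1, …`; above the last piece if `k` is the number of pieces).  The open strand is
directed upwards. -/
def IsOrientation (D : Diagram) (o : ℕ → List Bool) : Prop :=
  o 0 = [true] ∧ o D.length = [true] ∧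
    ∀ (k : ℕ) (h : k < D.length), (D[k]).Flow (o k) (o (k + 1))

/-- The sum of the signs `σ` of the crossings at which the strands have opposite directions. -/
def anti (D : Diagram) (o : ℕ → List Bool) : ℤ := ∑ k : Fin D.length, (D[k]).anti (o k)

/-- The number of crossings of a diagram. -/
def crossings (D : Diagram) : ℕ := (D.map Piece.crossings).sum

/-- The closure of the (1,1)-tangle `D` is a knot: there is at most one orientation of `D` (which is
directed upwards at the ends; closed components could be oriented in two ways). -/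
def OneComponent (D : Diagram) : Prop :=
  ∀ o o' : ℕ → List Bool, IsOrientation D o → IsOrientation D o' → ∀ k ≤ D.length, o k = o' k

/-- The `N`-coloured Jones polynomial of the knot with the oriented diagram `D`, `o` (unknot `= 1`)
at `q = v^2`. -/
noncomputable def knotJones (N : ℕ) (D : Diagram) (o : ℕ → List Bool) (v : ℂ) : ℂ :=
  (-1) ^ ((N - 1) * crossings D) * v ^ (((N : ℤ) ^ 2 - 1) * anti D o) * jones N D v

/-- The Kashaev invariant of the knot with the oriented diagram `D`, `o`. -/
noncomputable def kashaev (D : Diagram) (o : ℕ → List Bool) (N : ℕ) : ℂ :=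
  knotJones N D o (root N)

/-- `W` is a 3-braid: twist regions of the strands 1, 2 and of the strands 2, 3. -/
def IsBraid (W : Diagram) : Prop :=
  ∀ P ∈ W, ∃ (σ : Bool) (m : ℕ), P = .twist 0 σ m ∨ P = .twist 1 σ m

/-- The alternating 3-braid with the twist regions `a_1, a_2, …`: positive crossings of the strands
1, 2 and negative crossings of the strands 2, 3 in turn. -/
def syllables : Bool → List ℕ → Diagram
  | _, [] => []
  | true, a :: l => .twist 0 true a :: syllables false l
  | false, a :: l => .twist 1 false a :: syllables true l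

/-- The two-bridge link `C(a_1, …, a_r)`, cut open: one strand and a cup to its right, `a_1` crossings
of the strands 1, 2, then `a_2` opposite crossings of the strands 2, 3, and so on; finally a cap,
which closes the strands 1, 2 if `r` is even and the strands 2, 3 if `r` is odd. -/
def twoBridge (a : List ℕ) : Diagram :=
  .cup 1 :: syllables true a ++ [if Even a.length then .cap 0 else .cap 1]

/-! ### Translation to the library -/

/-- the pieces of the library -/
def tr : Piece → Pool.Agent.W709.QAT.Piece
  | .cup i => .cup i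
  | .cap i => .cap i
  | .twist i σ m => .twist i σ m

lemma act_eq (N : ℕ) (v : ℂ) (P : Piece) (f : List (Fin N) → ℂ) :
    P.act N v f = (tr P).act N v f := by
  cases P with
  | cup i =>
    funext s
    simp only [Piece.act, tr, Pool.Agent.W709.QAT.Piece.act]
    rcases s.drop i with _ | ⟨a, _ | ⟨b, r⟩⟩ <;> rfl
  | cap i => rfl
  | twist i σ m =>
    funext s
    simp only [Piece.act, tr, Pool.Agent.W709.QAT.Piece.act]
    rcases s.drop i with _ | ⟨a, _ | ⟨b, r⟩⟩ <;> rfl

lemma run_eq (N : ℕ) (v : ℂ) (D : Diagram) (f : List (Fin N) → ℂ) :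
    run N v D f = Pool.Agent.W709.QAT.run N v (D.map tr) f := by
  unfold run Pool.Agent.W709.QAT.run
  induction D generalizing f with
  | nil => rfl
  | cons P D ih =>
    rw [List.map_cons, List.foldl_cons, List.foldl_cons, act_eq, ih]

lemma jones_eq (N : ℕ) (D : Diagram) :
    jones N D = Pool.Agent.W709.QAT.jones N (D.map tr) := by
  funext v
  unfold jones Pool.Agent.W709.QAT.jones
  split_ifs with h
  · rw [run_eq]
  · rfl

lemma strands_eq (P : Piece) (n : ℕ) : (tr P).strands n = P.strands n := by
  cases P <;> rfl

lemma tangle_eq (D : Diagram) (n k : ℕ) :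
    IsTangle D n k ↔ Pool.Agent.R807.Fits (D.map tr) n k := by
  unfold IsTangle Pool.Agent.R807.Fits
  have h : ∀ o : Option ℕ, D.foldl (fun n P => n.bind P.strands) o =
      (D.map tr).foldl (fun n P => n.bind P.strands) o := by
    induction D with
    | nil => intro o; rfl
    | cons P D ih =>
      intro o
      rw [List.map_cons, List.foldl_cons, List.foldl_cons, ← ih]
      congr 1
      cases o with
      | none => rfl
      | some m => exact (strands_eq P m).symm
  rw [h]

lemma star_eq (D : Diagram) (n : ℕ) : (star D n).map tr = Pool.Agent.R807.adj (D.map tr) n := by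
  induction D generalizing n with
  | nil => rfl
  | cons P D ih =>
    simp only [star, List.map_append, List.map_cons, List.map_nil, Pool.Agent.R807.adj]
    rw [ih, strands_eq]
    congr 2
    cases P <;> rfl

/-! ### Checks of the definitions (not part of the result)

For `N = 2` the skein relation; the moves that generate the isotopies of diagrams of unoriented
links, up to a factor `c` with `|c| = 1` for `|v| = 1`. -/

/-- For `N = 2` the crossings satisfy the skein relation of the Jones polynomial. -/
theorem skein (v : ℂ) (hv : v ≠ 0) (h1 : br v 1 ≠ 0) :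
    v ^ 2 • crossP 2 v - (v ^ 2)⁻¹ • crossN 2 v =
      (v - v⁻¹) • (1 : Matrix (Fin 2 × Fin 2) (Fin 2 × Fin 2) ℂ) :=
  Pool.Agent.H550R3.Jones.taskSanSkein v hv h1

/-- Zigzag. -/
theorem zigzag (N : ℕ) (v : ℂ) (hv : v ≠ 0) (h : ∀ k : ℕ, 0 < k → k < N → br v k ≠ 0)
    (f : List (Fin N) → ℂ) (i : ℕ) (s : List (Fin N)) (hi : i < s.length) :
    run N v [.cup (i + 1), .cap i] f s = f s ∧ run N v [.cup i, .cap (i + 1)] f s = f s := by
  rw [run_eq, run_eq]
  exact Pool.Agent.W591.QAT.zz N v hv h f i s hi

/-- The first Reidemeister move (four cases). -/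
theorem reidemeister_one (N : ℕ) (v : ℂ) (hv : v ≠ 0) (h : ∀ k : ℕ, 0 < k → k < N → br v k ≠ 0)
    (hN : 0 < N) (f : List (Fin N) → ℂ) (i : ℕ) (s : List (Fin N)) :
    (i + 2 ≤ s.length →
      run N v [.cup i, .twist i true 1] f s =
        (-1) ^ (N - 1) * v ^ (-((N : ℤ) ^ 2 - 1)) * run N v [.cup i] f s ∧
      run N v [.cup i, .twist i false 1] f s =
        (-1) ^ (N - 1) * v ^ ((N : ℤ) ^ 2 - 1) * run N v [.cup i] f s) ∧
    (i ≤ s.length →
      run N v [.twist i true 1, .cap i] f s =
        (-1) ^ (N - 1) * v ^ (-((N : ℤ) ^ 2 - 1)) * run N v [.cap i] f s ∧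
      run N v [.twist i false 1, .cap i] f s =
        (-1) ^ (N - 1) * v ^ ((N : ℤ) ^ 2 - 1) * run N v [.cap i] f s) := by
  simp only [run_eq]
  exact ⟨fun hi => ⟨Pool.Agent.W193.QAT.r1 N v hv h hN f i s hi,
      Pool.Agent.W193.QAT.r1n N v hv h hN f i s hi⟩,
    fun hi => ⟨Pool.Agent.W193.QAT.r1c N v hv h hN f i s hi,
      Pool.Agent.W193.QAT.r1cn N v hv h hN f i s hi⟩⟩

/-- The second and the third Reidemeister move. -/
theorem reidemeister_two_three (N : ℕ) (v : ℂ) (hv : v ≠ 0)
    (h : ∀ k : ℕ, 0 < k → k < N → br v k ≠ 0) (f : List (Fin N) → ℂ) (i : ℕ) (s : List (Fin N)) :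
    (i + 2 ≤ s.length →
      run N v [.twist i true 1, .twist i false 1] f s = f s ∧
      run N v [.twist i false 1, .twist i true 1] f s = f s) ∧
    (i + 3 ≤ s.length →
      run N v [.twist i true 1, .twist (i + 1) true 1, .twist i true 1] f s =
      run N v [.twist (i + 1) true 1, .twist i true 1, .twist (i + 1) true 1] f s) := by
  rw [run_eq, run_eq, run_eq, run_eq]
  exact Pool.Agent.W591.QAT.reid N v hv h f i s

/-- A strand slides over a cup and over a cap. -/
theorem slide (N : ℕ) (v : ℂ) (hv : v ≠ 0) (h : ∀ k : ℕ, 0 < k → k < N → br v k ≠ 0)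
    (f : List (Fin N) → ℂ) (i : ℕ) (s : List (Fin N)) (σ : Bool) :
    (i + 3 ≤ s.length →
      run N v [.cup (i + 1), .twist i σ 1, .twist (i + 1) σ 1] f s =
        v ^ (if σ then -((N : ℤ) ^ 2 - 1) else (N : ℤ) ^ 2 - 1) * run N v [.cup i] f s ∧
      run N v [.cup i, .twist (i + 1) σ 1, .twist i σ 1] f s =
        v ^ (if σ then -((N : ℤ) ^ 2 - 1) else (N : ℤ) ^ 2 - 1) * run N v [.cup (i + 1)] f s) ∧
    (i + 1 ≤ s.length →
      run N v [.twist i σ 1, .twist (i + 1) σ 1, .cap i] f s =
        v ^ (if σ then -((N : ℤ) ^ 2 - 1) else (N : ℤ) ^ 2 - 1) * run N v [.cap (i + 1)] f s ∧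
      run N v [.twist (i + 1) σ 1, .twist i σ 1, .cap (i + 1)] f s =
        v ^ (if σ then -((N : ℤ) ^ 2 - 1) else (N : ℤ) ^ 2 - 1) * run N v [.cap i] f s) := by
  have e : Pool.Agent.W683.QAT.ct N v σ =
      v ^ (if σ then -((N : ℤ) ^ 2 - 1) else (N : ℤ) ^ 2 - 1) := by
    unfold Pool.Agent.W683.QAT.ct Pool.Agent.W683.QAT.cst
    cases σ
    · simp only [Bool.false_eq_true, if_false]
      rw [zpow_neg, inv_inv]
    · simp only [if_true]
  rw [← e]
  simp only [run_eq]
  exact Pool.Agent.W683.QAT.slide_all N v hv h f i s σ

/-- A twist region is a stack of crossings. -/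
theorem twist_succ (N : ℕ) (v : ℂ) (f : List (Fin N) → ℂ) (i m : ℕ) (σ : Bool)
    (s : List (Fin N)) (hi : i + 2 ≤ s.length) :
    run N v [.twist i σ m, .twist i σ 1] f s = run N v [.twist i σ (m + 1)] f s := by
  simp only [run_eq]
  exact Pool.Agent.W613.QAT.pow N v f i m σ s hi

/-! ### Orientations and the point reflection -/

lemma flow_strands {P : Piece} {a b : List Bool} (h : P.Flow a b) :
    P.strands a.length = some b.length := by
  cases P with
  | cup i =>
    obtain ⟨l, r, x, h1, rfl, rfl⟩ := h
    subst h1
    simp only [Piece.strands, List.length_append, List.length_cons]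
    rw [if_pos (by omega)]
    congr 1
  | cap i =>
    obtain ⟨l, r, x, h1, rfl, rfl⟩ := h
    subst h1
    simp only [Piece.strands, List.length_append, List.length_cons]
    rw [if_pos (by omega)]
    congr 1
  | twist i σ m =>
    obtain ⟨l, r, x, y, h1, rfl, rfl⟩ := h
    subst h1
    simp only [Piece.strands, List.length_append, List.length_cons]
    rw [if_pos (by omega)]
    congr 1
    split_ifs <;> simp

lemma flow_star {P : Piece} {a b : List Bool} (h : P.Flow a b) :
    (P.star a.length).Flow b.reverse a.reverse := by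
  cases P with
  | cup i =>
    obtain ⟨l, r, x, h1, rfl, rfl⟩ := h
    subst h1
    refine ⟨r.reverse, l.reverse, !x, ?_, ?_, ?_⟩
    · simp
    · simp
    · simp
  | cap i =>
    obtain ⟨l, r, x, h1, rfl, rfl⟩ := h
    subst h1
    refine ⟨r.reverse, l.reverse, !x, ?_, ?_, ?_⟩
    · simp only [List.length_reverse, List.length_append, List.length_cons]
      omega
    · simp
    · simp
  | twist i σ m =>
    obtain ⟨l, r, x, y, h1, rfl, rfl⟩ := h
    subst h1
    by_cases hm : Even m
    · refine ⟨r.reverse, l.reverse, y, x, ?_, ?_, ?_⟩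
      · simp only [List.length_reverse, List.length_append, List.length_cons]
        omega
      · simp [hm]
      · simp [hm]
    · refine ⟨r.reverse, l.reverse, x, y, ?_, ?_, ?_⟩
      · simp only [List.length_reverse, List.length_append, List.length_cons]
        omega
      · simp [hm]
      · simp [hm]

lemma anti_twist (l r : List Bool) (x y : Bool) (σ : Bool) (m : ℕ) :
    (Piece.twist l.length σ m).anti (l ++ x :: y :: r) =
      if x = y then 0 else if σ then (m : ℤ) else -m := by
  simp only [Piece.anti]
  have e : (l ++ x :: y :: r).drop l.length = x :: y :: r := by simp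
  rw [e]

lemma anti_star {P : Piece} {a b : List Bool} (h : P.Flow a b) :
    (P.star a.length).anti b.reverse = -P.anti a := by
  cases P with
  | cup i => simp [Piece.star, Piece.anti]
  | cap i => simp [Piece.star, Piece.anti]
  | twist i σ m =>
    obtain ⟨l, r, x, y, h1, rfl, rfl⟩ := h
    subst h1
    rw [anti_twist]
    have e : (Piece.twist l.length σ m).star (l ++ x :: y :: r).length =
        Piece.twist r.reverse.length (!σ) m := by
      simp only [Piece.star, List.length_reverse, List.length_append, List.length_cons]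
      congr 1
      omega
    rw [e]
    by_cases hm : Even m
    · rw [if_pos hm]
      have e2 : (l ++ x :: y :: r).reverse = r.reverse ++ y :: x :: l.reverse := by simp
      rw [e2, anti_twist]
      cases x <;> cases y <;> cases σ <;> simp
    · rw [if_neg hm]
      have e2 : (l ++ y :: x :: r).reverse = r.reverse ++ x :: y :: l.reverse := by simp
      rw [e2, anti_twist]
      cases x <;> cases y <;> cases σ <;> simp

lemma star_length (D : Diagram) (n : ℕ) : (star D n).length = D.length := by
  induction D generalizing n with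
  | nil => rfl
  | cons P D ih => simp [star, ih]

lemma star_get (D : Diagram) (o : ℕ → List Bool)
    (h : ∀ (k : ℕ) (hk : k < D.length), (D[k]).Flow (o k) (o (k + 1))) (k : ℕ)
    (hk : k < D.length) :
    (star D (o 0).length)[D.length - 1 - k]'(by rw [star_length]; omega) =
      (D[k]).star (o k).length := by
  induction D generalizing o k with
  | nil => exact absurd hk (by simp)
  | cons P D ih =>
    have h0 := h 0 (by simp)
    have h1 := flow_strands h0
    simp only [List.getElem_cons_zero] at h1
    have e : star (P :: D) (o 0).length = star D (o 1).length ++ [P.star (o 0).length] := by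
      simp only [star]
      rw [h1]
      rfl
    simp only [e]
    cases k with
    | zero =>
      rw [List.getElem_append_right (by rw [star_length]; simp)]
      simp
    | succ k =>
      have hk' : k < D.length := by simpa using hk
      rw [List.getElem_append_left (by rw [star_length]; simp; omega)]
      have := ih (fun k => o (k + 1)) (fun k hk => by
        have := h (k + 1) (by simpa using hk)
        simpa using this) k hk'
      simp only [List.length_cons, List.getElem_cons_succ]
      rw [← this]
      congr 1
      omega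

/-- the image of an orientation -/
def flip (D : Diagram) (o : ℕ → List Bool) (k : ℕ) : List Bool := (o (D.length - k)).reverse

lemma flip_orientation {D : Diagram} (o : ℕ → List Bool) (ho : IsOrientation D o)
    (hs : star D 1 = D) : IsOrientation D (flip D o) := by
  obtain ⟨h0, h1, h2⟩ := ho
  refine ⟨?_, ?_, ?_⟩
  · simp [flip, h1]
  · simp [flip, h0]
  · intro k hk
    have h3 := star_get D o h2 (D.length - 1 - k) (by omega)
    have e0 : (o 0).length = 1 := by rw [h0]; rfl
    have h4 := flow_star (h2 (D.length - 1 - k) (by omega))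
    rw [← h3] at h4
    have e1 : D.length - 1 - k + 1 = D.length - k := by omega
    have e2 : D.length - (k + 1) = D.length - 1 - k := by omega
    have e3 : D.length - 1 - (D.length - 1 - k) = k := by omega
    have e4 : (star D (o 0).length)[D.length - 1 - (D.length - 1 - k)]'(by
        rw [star_length]; omega) = D[k] := by
      simp only [e0, hs, e3]
    rw [e4, e1] at h4
    unfold flip
    rw [e2]
    exact h4

lemma anti_eq (D : Diagram) (o : ℕ → List Bool) : anti D o =
    ∑ k ∈ range D.length, (if h : k < D.length then (D[k]).anti (o k) else 0) := by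
  unfold anti
  rw [← Fin.sum_univ_eq_sum_range
    (fun k => if h : k < D.length then (D[k]).anti (o k) else 0)]
  refine sum_congr rfl fun k _ => ?_
  rw [dif_pos k.2]
  rfl

/-- **knots which are equal to their image under the point reflection** -/
theorem anti_zero {D : Diagram} (hs : star D 1 = D) (h1 : OneComponent D) {o : ℕ → List Bool}
    (ho : IsOrientation D o) : anti D o = 0 := by
  have h2 := flip_orientation o ho hs
  have h3 : anti D (flip D o) = anti D o := by
    rw [anti_eq, anti_eq]
    refine sum_congr rfl fun k hk => ?_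
    rw [h1 _ _ h2 ho k (mem_range.1 hk).le]
  have h4 : anti D (flip D o) = -anti D o := by
    rw [anti_eq, anti_eq, ← sum_range_reflect, ← sum_neg_distrib]
    refine sum_congr rfl fun k hk => ?_
    have hk' := mem_range.1 hk
    rw [dif_pos (show D.length - 1 - k < D.length by omega), dif_pos hk']
    have h5 := anti_star (ho.2.2 k hk')
    have h6 := star_get D o ho.2.2 k hk'
    have e0 : (o 0).length = 1 := by rw [ho.1]; rfl
    rw [← h6] at h5
    have e4 : (star D (o 0).length)[D.length - 1 - k]'(by
        rw [star_length]; omega) = D[D.length - 1 - k] := by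
      simp only [e0, hs]
    rw [e4] at h5
    rw [← h5]
    unfold flip
    have e1 : D.length - (D.length - 1 - k) = k + 1 := by omega
    rw [e1]
  omega

lemma crossings_append (D E : Diagram) : crossings (D ++ E) = crossings D + crossings E := by
  simp [crossings]

lemma crossings_star (D : Diagram) (n : ℕ) : crossings (star D n) = crossings D := by
  induction D generalizing n with
  | nil => rfl
  | cons P D ih =>
    rw [star, crossings_append, ih]
    have : crossings [P.star n] = P.crossings := by
      cases P <;> simp [crossings, Piece.star, Piece.crossings]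
    rw [this]
    simp [crossings, add_comm]


/-! ### The diagrams `T* T` -/

lemma tr_inj : Function.Injective tr := by
  intro a b h
  cases a <;> cases b <;> simp_all [tr]

lemma star_pal {T : Diagram} (hT : IsTangle T 1 3) : star (T ++ star T 1) 1 = T ++ star T 1 := by
  have hF := (tangle_eq _ _ _).1 hT
  apply List.map_injective_iff.2 tr_inj
  rw [star_eq, List.map_append, star_eq, Pool.Agent.R807.adj_append hF, Pool.Agent.R807.adj_adj hF]

lemma kashaev_pal {T : Diagram} (hT : IsTangle T 1 3) (h1 : OneComponent (T ++ star T 1))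
    {o : ℕ → List Bool} (ho : IsOrientation (T ++ star T 1) o) (N : ℕ) :
    kashaev (T ++ star T 1) o N =
      Pool.Agent.W709.QAT.jones N (T.map tr ++ Pool.Agent.R807.adj (T.map tr) 1)
        (Pool.Agent.W715.VC.rt N) := by
  unfold kashaev knotJones
  rw [anti_zero (star_pal hT) h1 ho, crossings_append, crossings_star, mul_zero, zpow_zero, mul_one,
    jones_eq, List.map_append, star_eq]
  have e : (N - 1) * (crossings T + crossings T) = 2 * ((N - 1) * crossings T) := by ring
  rw [e, pow_mul, neg_one_sq, one_pow, one_mul]
  rfl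

lemma cup_tangle {W : Diagram} (hW : IsBraid W) : IsTangle (.cup 1 :: W) 1 3 := by
  rw [tangle_eq]
  refine Pool.Agent.R807.fits_cons' (m := 3) rfl (Pool.Agent.R807.fits_braid ?_)
  intro P hP
  obtain ⟨Q, hQ, rfl⟩ := List.mem_map.1 hP
  obtain ⟨σ, m, h⟩ := hW Q hQ
  rcases h with rfl | rfl
  · exact ⟨σ, m, Or.inl rfl⟩
  · exact ⟨σ, m, Or.inr rfl⟩

lemma nonneg {T : Diagram} (hT : IsTangle T 1 3) (h1 : OneComponent (T ++ star T 1))
    {o : ℕ → List Bool} (ho : IsOrientation (T ++ star T 1) o) {N : ℕ} (hN : 1 ≤ N) :
    ∃ x : ℝ, 0 ≤ x ∧ kashaev (T ++ star T 1) o N = x := by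
  rw [kashaev_pal hT h1 ho]
  exact Pool.Agent.R807.jones_nonneg (N := N) hN ((tangle_eq _ _ _).1 hT)

lemma positive {W : Diagram} (hW : IsBraid W)
    (h1 : OneComponent (.cup 1 :: W ++ star (.cup 1 :: W) 1))
    {o : ℕ → List Bool} (ho : IsOrientation (.cup 1 :: W ++ star (.cup 1 :: W) 1) o) {N : ℕ}
    (hN : 1 ≤ N) :
    ∃ x : ℝ, 0 < x ∧ kashaev (.cup 1 :: W ++ star (.cup 1 :: W) 1) o N = x := by
  rw [kashaev_pal (cup_tangle hW) h1 ho]
  have hB : Pool.Agent.R807.IsBraid (W.map tr) := by
    intro P hP
    obtain ⟨Q, hQ, rfl⟩ := List.mem_map.1 hP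
    obtain ⟨σ, m, h⟩ := hW Q hQ
    rcases h with rfl | rfl
    · exact ⟨σ, m, Or.inl rfl⟩
    · exact ⟨σ, m, Or.inr rfl⟩
  exact Pool.Agent.R807.jones_pos (N := N) hN hB

lemma syllables_append (b : Bool) (l l' : List ℕ) : syllables b (l ++ l') =
    syllables b l ++ syllables (if Even l.length then b else !b) l' := by
  induction l generalizing b with
  | nil => simp [syllables]
  | cons a l ih =>
    cases b
    · simp only [List.cons_append, syllables, ih, List.length_cons, Nat.even_add_one]
      by_cases h : Even l.length <;> simp [h]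
    · simp only [List.cons_append, syllables, ih, List.length_cons, Nat.even_add_one]
      by_cases h : Even l.length <;> simp [h]

lemma star_syllables (b : Bool) (l : List ℕ) : star (syllables b l) 3 =
    syllables (if Even l.length then b else !b) l.reverse := by
  induction l generalizing b with
  | nil => cases b <;> simp [syllables, star]
  | cons a l ih =>
    have e : ∀ (P : Piece) (D : Diagram), P.strands 3 = some 3 →
        star (P :: D) 3 = star D 3 ++ [P.star 3] := by
      intro P D h
      simp only [star, h]
      rfl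
    cases b
    · have e1 : syllables false (a :: l) = .twist 1 false a :: syllables true l := rfl
      rw [e1, e _ _ rfl, ih, List.reverse_cons, syllables_append, List.length_reverse]
      by_cases h : Even l.length <;>
        simp [h, List.length_cons, Nat.even_add_one, syllables, Piece.star]
    · have e1 : syllables true (a :: l) = .twist 0 true a :: syllables false l := rfl
      rw [e1, e _ _ rfl, ih, List.reverse_cons, syllables_append, List.length_reverse]
      by_cases h : Even l.length <;>
        simp [h, List.length_cons, Nat.even_add_one, syllables, Piece.star]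

lemma twoBridge_pal (l : List ℕ) : twoBridge (l ++ l.reverse) =
    .cup 1 :: syllables true l ++ star (.cup 1 :: syllables true l) 1 := by
  have h : Even (l ++ l.reverse).length := by
    rw [List.length_append, List.length_reverse]
    exact ⟨_, rfl⟩
  have e : star (.cup 1 :: syllables true l) 1 = star (syllables true l) 3 ++ [.cap 0] := rfl
  unfold twoBridge
  rw [if_pos h, syllables_append, e, star_syllables]
  simp

lemma syllables_braid (b : Bool) (l : List ℕ) : IsBraid (syllables b l) := by
  induction l generalizing b with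
  | nil => intro P hP; cases b <;> simp [syllables] at hP
  | cons a l ih =>
    intro P hP
    cases b
    · simp only [syllables, List.mem_cons] at hP
      rcases hP with rfl | hP
      · exact ⟨false, a, Or.inr rfl⟩
      · exact ih _ P hP
    · simp only [syllables, List.mem_cons] at hP
      rcases hP with rfl | hP
      · exact ⟨true, a, Or.inl rfl⟩
      · exact ih _ P hP

lemma cont (N : ℕ) (D : Diagram) (o : ℕ → List Bool) (hN : 1 ≤ N) :
    ContinuousAt (knotJones N D o) (root N) := by
  have h1 : ContinuousAt (jones N D) (root N) := by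
    rw [jones_eq]
    exact Pool.Agent.W613.QAT.cont (D.map tr) N hN
  exact (continuousAt_const.mul (continuousAt_zpow₀ _ _ (Or.inl (Complex.exp_ne_zero _)))).mul h1

/-- `N → ∞` through the odd integers. -/
def oddTop : Filter ℕ := atTop ⊓ 𝓟 {N | Odd N}

/-! ### The result -/

/-- **Kashaev invariants of amphicheiral two-bridge knots at odd roots of unity.**
(1) For every `N ≥ 1` the coloured Jones polynomial is continuous at `v_N`, so that `kashaev D o N` is
its value at `q = e^(2 π i / N)` in the usual sense.
(2) Let `T` be a tangle with one end at the bottom and three ends at the top such that `K = T* T` is a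
knot.  Then `⟨K⟩_N` is a real number `≥ 0` for all `N ≥ 1`.
(3) If `T` is a cup followed by a 3-braid then `⟨K⟩_N > 0` for all `N ≥ 1`.
(4) Let `K` be an amphicheiral two-bridge knot `C(a_1, …, a_r, a_r, …, a_1)`, and `a_N = ⟨K⟩_N`.  For
all `N ≥ 1`, `a_N ≠ 0`, `a_{N+2} / a_N` is real and positive, and the imaginary part of
`π Log (a_{N+2} / a_N)` is `0`.
(5) If `(2 π / N) log |a_N|` converges to `V` as `N → ∞` through the odd integers, and if
`a_{N+2} / a_N` converges, then its limit is `exp (V / π)`. -/
theorem result :
    (∀ (N : ℕ) (D : Diagram) (o : ℕ → List Bool), 1 ≤ N →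
      ContinuousAt (knotJones N D o) (root N)) ∧
    (∀ T : Diagram, IsTangle T 1 3 → OneComponent (T ++ star T 1) →
      ∀ o, IsOrientation (T ++ star T 1) o → ∀ N : ℕ, 1 ≤ N →
        ∃ x : ℝ, 0 ≤ x ∧ kashaev (T ++ star T 1) o N = x) ∧
    (∀ W : Diagram, IsBraid W → OneComponent (.cup 1 :: W ++ star (.cup 1 :: W) 1) →
      ∀ o, IsOrientation (.cup 1 :: W ++ star (.cup 1 :: W) 1) o → ∀ N : ℕ, 1 ≤ N →
        ∃ x : ℝ, 0 < x ∧ kashaev (.cup 1 :: W ++ star (.cup 1 :: W) 1) o N = x) ∧
    (∀ l : List ℕ, OneComponent (twoBridge (l ++ l.reverse)) →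
      ∀ o, IsOrientation (twoBridge (l ++ l.reverse)) o →
        (∀ N : ℕ, 1 ≤ N → kashaev (twoBridge (l ++ l.reverse)) o N ≠ 0 ∧
          (∃ y : ℝ, 0 < y ∧ kashaev (twoBridge (l ++ l.reverse)) o (N + 2) /
            kashaev (twoBridge (l ++ l.reverse)) o N = y) ∧
          (Real.pi * Complex.log (kashaev (twoBridge (l ++ l.reverse)) o (N + 2) /
            kashaev (twoBridge (l ++ l.reverse)) o N)).im = 0) ∧
        ∀ V : ℝ, Tendsto (fun N : ℕ => 2 * Real.pi *
            (Real.log ‖kashaev (twoBridge (l ++ l.reverse)) o N‖ / N)) oddTop (𝓝 V) →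
          ∀ c : ℂ, Tendsto (fun N : ℕ => kashaev (twoBridge (l ++ l.reverse)) o (N + 2) /
            kashaev (twoBridge (l ++ l.reverse)) o N) oddTop (𝓝 c) →
              c = Complex.exp (V / Real.pi)) := by
  have hpos : ∀ (l : List ℕ) (o : ℕ → List Bool), OneComponent (twoBridge (l ++ l.reverse)) →
      IsOrientation (twoBridge (l ++ l.reverse)) o → ∀ N : ℕ, 1 ≤ N →
        ∃ x : ℝ, 0 < x ∧ kashaev (twoBridge (l ++ l.reverse)) o N = x := by
    intro l o h1 ho N hN
    rw [twoBridge_pal] at h1 ho ⊢
    exact positive (syllables_braid _ _) h1 ho hN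
  refine ⟨fun N D o hN => cont N D o hN, fun T hT h1 o ho N hN => nonneg hT h1 ho hN,
    fun W hW h1 o ho N hN => positive hW h1 ho hN, ?_⟩
  intro l h1 o ho
  have hJ := hpos l o h1 ho
  refine ⟨?_, fun V hV => Pool.Agent.R807.Ratio.pos_odd hJ hV⟩
  intro N hN
  obtain ⟨x, hx, h2⟩ := hJ N hN
  obtain ⟨y, hy, h3⟩ := hJ (N + 2) (by omega)
  have h4 : kashaev (twoBridge (l ++ l.reverse)) o (N + 2) /
      kashaev (twoBridge (l ++ l.reverse)) o N = ((y / x : ℝ) : ℂ) := by
    rw [h2, h3]
    push_cast
    rfl
  refine ⟨?_, ⟨y / x, div_pos hy hx, h4⟩, ?_⟩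
  · rw [h2]
    exact_mod_cast hx.ne'
  · rw [h4, ← Complex.ofReal_log (div_pos hy hx).le, ← Complex.ofReal_mul, Complex.ofReal_im]

end Pool.Agent.Results.MP_b30479_gt.AchiralTwoBridgeOdd
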