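import Pool.Agent.R807.Phase
import Pool.Agent.R807.Ratio
import Pool.Agent.W715.VC.Axis
import Pool.Agent.H756R3.J.Cont
import Pool.Agent.H105R3.JSanCurl
import Pool.Agent.H309R4.Jones.SanU
import Pool.Agent.H550R3.Jones.SanSkein699

/-!
# The complexified volume conjecture at odd roots of unity for closures of palindromic 3-braids
# with their axes

For a 3-braid `w` let `L(w)` be the link which consists of the closure of `w` and of the braid axis,
written as the closure of a braid on four strands: strand number `0` runs once around the other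
three strands (this is the axis) and the last three strands carry `w`.  The dual `u*` of a word `u`
is obtained from its inverse by exchanging `s_1` and `s_2`.  The mirror image of `u u*` is conjugate
to `u u*` reversed (conjugate by the half twist): the links `L((u u*)^n)` are amphicheiral, so that
the Chern-Simons invariant of the complement is `0` modulo `π²` if it is hyperbolic.

The invariants are defined from the R-matrix of `U_q(sl_2)`, with `v = q^{1/2}` and
`{k} = v^k - v^{-k}`.  The `N`-coloured Jones polynomial `cjones N n w v` of the closure of a braid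
word `w` on `n + 1` strands is the entry at the highest weight vector of the partial quantum trace
(over all strands but the first one) of the operator of `w` on the tensor power of the
`N`-dimensional irreducible representation.  The crossings carry the framing correction and the
unknot has value `1`.  The Kashaev invariant is its value at `v = exp (π i / N)`, that is
`q = exp (2 π i / N)`.

The complement of `L((s_1^A s_2^{-A})^n)` is the `n`-fold cyclic cover of that of
`L(s_1^A s_2^{-A})`, the bundle over the circle whose fibre is the sphere with four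
punctures and whose monodromy acts as `L^A R^A`.  It has a layered ideal triangulation with `2 A`
layers of two ideal tetrahedra with the same dihedral angles (layer number `i` modulo `2 A`; the
layers whose number is divisible by `A` are the hinge layers).  Its angle structures are described by
functions `w` on the layers as in Gueritaud's work on once-punctured torus bundles.  The bundle is
hyperbolic, and the greatest volume of an angle structure is the volume of the complement (Casson and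
Rivin).  For `A = 1` and `A = 2` the volumes `4 v_3 = 8 Λ(π/6)` and `2 v_8 = 16 Λ(π/4)` are written
down directly.
-/

set_option autoImplicit false

namespace Pool.Agent.Results.MP_b30479_gt.BraidAxisOdd

open Finset Filter Topology

/-- `{n} = v^n - v^{-n}` -/
noncomputable def br (v : ℂ) (n : ℤ) : ℂ := v ^ n - v ^ (-n)

/-- `{n}! = {1} {2} ⋯ {n}` -/
noncomputable def brf (v : ℂ) (n : ℕ) : ℂ := ∏ j ∈ range n, br v ((j : ℤ) + 1)

/-- The positive crossing: the R-matrix of `U_q(sl_2)` on `V_N ⊗ V_N`, `V_N` with basis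
`e_0, …, e_{N-1}`, times the framing factor `v^{-(N^2-1)/2}`; `crossP N v p q` is the coefficient
of `e_{p.1} ⊗ e_{p.2}` in the image of `e_{q.1} ⊗ e_{q.2}`:
`e_i ⊗ e_j ↦ ∑_n v^{-(N-1)(1+i+j) + 2(i-n)(j+n) + n(n-1)/2}
({j+n}! / ({j}! {n}!)) ∏_{t<n} {N-i+t} e_{j+n} ⊗ e_{i-n}`. -/
noncomputable def crossP (N : ℕ) (v : ℂ) : Matrix (Fin N × Fin N) (Fin N × Fin N) ℂ :=
  fun p q => if (p.1 : ℕ) + p.2 = q.1 + q.2 ∧ (q.2 : ℕ) ≤ p.1 then
    v ^ (-((N : ℤ) - 1) * (1 + (q.1 : ℕ) + (q.2 : ℕ)) + 2 * (p.1 : ℕ) * (p.2 : ℕ)) *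
      v ^ (((p.1 : ℕ) - q.2) * ((p.1 : ℕ) - q.2 - 1) / 2) *
      (brf v p.1 / (brf v q.2 * brf v ((p.1 : ℕ) - q.2))) *
      ∏ t ∈ range ((p.1 : ℕ) - q.2), br v ((N : ℤ) - (q.1 : ℕ) + t)
    else 0

/-- The negative crossing, inverse of `crossP N v`:
`e_i ⊗ e_j ↦ ∑_n (-1)^n v^{(N-1)(1+i+j) - 2ij - n(n-1)/2}
({i+n}! / ({i}! {n}!)) ∏_{t<n} {N-j+t} e_{j-n} ⊗ e_{i+n}`. -/
noncomputable def crossN (N : ℕ) (v : ℂ) : Matrix (Fin N × Fin N) (Fin N × Fin N) ℂ :=
  fun p q => if (p.1 : ℕ) + p.2 = q.1 + q.2 ∧ (q.1 : ℕ) ≤ p.2 then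
    (-1) ^ ((p.2 : ℕ) - q.1) *
      v ^ (((N : ℤ) - 1) * (1 + (q.1 : ℕ) + (q.2 : ℕ)) - 2 * (q.1 : ℕ) * (q.2 : ℕ)) /
      v ^ (((p.2 : ℕ) - q.1) * ((p.2 : ℕ) - q.1 - 1) / 2) *
      (brf v p.2 / (brf v q.1 * brf v ((p.2 : ℕ) - q.1))) *
      ∏ t ∈ range ((p.2 : ℕ) - q.1), br v ((N : ℤ) - (q.2 : ℕ) + t)
    else 0

/-- The braid generator `s_k` on `n` strands (it acts on the strands number `k` and `k + 1`,
counted from `0`) by the crossing matrix `A`. -/
def gen {ι : Type} [DecidableEq ι] (A : Matrix (ι × ι) (ι × ι) ℂ) (n k : ℕ) :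
    Matrix (Fin n → ι) (Fin n → ι) ℂ :=
  fun s t => if h : k + 1 < n then
    (if ∀ j : Fin n, (j : ℕ) ≠ k → (j : ℕ) ≠ k + 1 → s j = t j then
      A (s ⟨k, by omega⟩, s ⟨k + 1, h⟩) (t ⟨k, by omega⟩, t ⟨k + 1, h⟩) else 0)
    else (if s = t then 1 else 0)

/-- The operator of a braid word on `n` strands: the letter `(k, true)` is `s_k`, the letter
`(k, false)` is its inverse; `P` and `Q` are the matrices of the two crossings. -/
def rep {ι : Type} [Fintype ι] [DecidableEq ι] (P Q : Matrix (ι × ι) (ι × ι) ℂ) (n : ℕ)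
    (w : List (ℕ × Bool)) : Matrix (Fin n → ι) (Fin n → ι) ℂ :=
  (w.map fun g => gen (if g.2 then P else Q) n g.1).prod

/-- The partial trace over all strands but the first one, with weights `k`; `n + 1` strands. -/
def tail {ι : Type} [Fintype ι] (k : ι → ℂ) (n : ℕ)
    (A : Matrix (Fin (n + 1) → ι) (Fin (n + 1) → ι) ℂ) : Matrix ι ι ℂ :=
  fun i j => ∑ s : Fin n → ι, (∏ x, k (s x)) * A (Fin.cons i s) (Fin.cons j s)

/-- The `N`-coloured Jones polynomial (unknot `= 1`) of the closure of the braid word `w` on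
`n + 1` strands, at `q = v^2`: the entry at the highest weight vector `e_0` of the partial quantum
trace, with the weights `v^{N-1-2x}` of `K`. -/
noncomputable def cjones (N n : ℕ) (w : List (ℕ × Bool)) (v : ℂ) : ℂ :=
  if h : 0 < N then
    tail (fun x : Fin N => v ^ ((N : ℤ) - 1 - 2 * (x : ℕ))) n
      (rep (crossP N v) (crossN N v) (n + 1) w) ⟨0, h⟩ ⟨0, h⟩ else 0

/-- The braid axis: strand `0` runs once around the strands `1`, `2` and `3`. -/
def axisWord : List (ℕ × Bool) :=
  [(0, true), (1, true), (2, true), (2, true), (1, true), (0, true)]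

/-- The word on four strands of the link `L(w)`: the axis, and then the braid `w` on the strands
`1`, `2` and `3`.  In `w` the letters `(0, ·)` and `(1, ·)` are the generators `s_1` and `s_2`. -/
def linkWord (w : List (ℕ × Bool)) : List (ℕ × Bool) := axisWord ++ w.map fun l => (l.1 + 1, l.2)

/-- `w` is a word on three strands. -/
def IsWord (w : List (ℕ × Bool)) : Prop := ∀ l ∈ w, l.1 < 2

/-- The dual word: the inverse with `s_1` and `s_2` exchanged. -/
def star (w : List (ℕ × Bool)) : List (ℕ × Bool) := (w.map fun l => (1 - l.1, !l.2)).reverse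

/-- The word `(u u*)^n`. -/
def pal (u : List (ℕ × Bool)) (n : ℕ) : List (ℕ × Bool) :=
  (List.replicate n (u ++ star u)).flatten

/-- The word `s_1^A`; `pal (power A) n` is `(s_1^A s_2^{-A})^n`. -/
def power (A : ℕ) : List (ℕ × Bool) := List.replicate A (0, true)

/-- `v_N = exp (π i / N)`, so that `q = v_N^2 = exp (2 π i / N)`. -/
noncomputable def root (N : ℕ) : ℂ := Complex.exp (Real.pi * Complex.I / N)

/-- The Kashaev invariant of `L(w)`. -/
noncomputable def kashaev (w : List (ℕ × Bool)) (N : ℕ) : ℂ := cjones N 3 (linkWord w) (root N)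

/-- Lobachevsky's function `Λ(x) = -∫_0^x log |2 sin t| dt`. -/
noncomputable def Lob (x : ℝ) : ℝ := -∫ t in (0 : ℝ)..x, Real.log |2 * Real.sin t|

/-- First dihedral angle of the tetrahedra of layer `i` (hinge layers: `A` divides `i`). -/
noncomputable def angX (A : ℕ) (w : ℤ → ℝ) (i : ℤ) : ℝ :=
  if (A : ℤ) ∣ i then (w (i - 1) + w i - w (i + 1)) / 2 else (w (i - 1) + w (i + 1)) / 2

/-- Second dihedral angle of the tetrahedra of layer `i`. -/
noncomputable def angY (A : ℕ) (w : ℤ → ℝ) (i : ℤ) : ℝ :=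
  if (A : ℤ) ∣ i then (-w (i - 1) + w i + w (i + 1)) / 2 else (2 * w i - w (i - 1) - w (i + 1)) / 2

/-- Third dihedral angle of the tetrahedra of layer `i`. -/
noncomputable def angZ (w : ℤ → ℝ) (i : ℤ) : ℝ := Real.pi - w i

/-- Angle structures on the layered triangulation of the complement of `L((s_1^A s_2^{-A})^n)`:
functions on the layers (with period `2 A n`) with positive dihedral angles. -/
def IsAngle (A n : ℕ) (w : ℤ → ℝ) : Prop :=
  (∀ i, w (i + 2 * A * n) = w i) ∧ ∀ i, 0 < angX A w i ∧ 0 < angY A w i ∧ 0 < angZ w i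

/-- The volume of an angle structure: two ideal tetrahedra in each of the `2 A n` layers, each of
volume `Λ(x) + Λ(y) + Λ(z)`. -/
noncomputable def vol (A n : ℕ) (w : ℤ → ℝ) : ℝ :=
  ∑ i ∈ range (2 * A * n), 2 * (Lob (angX A w i) + Lob (angY A w i) + Lob (angZ w i))

/-- The volume of the complement of `L((s_1^A s_2^{-A})^n)`: `8 n Λ(π/6)` for `A = 1`,
`16 n Λ(π/4)` for `A = 2`, the greatest volume of an angle structure for the other `A`. -/
noncomputable def V (A n : ℕ) : ℝ :=
  if A = 1 then n * (8 * Lob (Real.pi / 6))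
  else if A = 2 then n * (16 * Lob (Real.pi / 4))
  else sSup {W : ℝ | ∃ w : ℤ → ℝ, IsAngle A n w ∧ vol A n w = W}

/-! ### Checks of the definitions (not part of the result) -/

/-- For `N = 2` the crossings satisfy the skein relation of the Jones polynomial. -/
theorem skein (v : ℂ) (hv : v ≠ 0) (h1 : br v 1 ≠ 0) :
    v ^ 2 • crossP 2 v - (v ^ 2)⁻¹ • crossN 2 v =
      (v - v⁻¹) • (1 : Matrix (Fin 2 × Fin 2) (Fin 2 × Fin 2) ℂ) :=
  Pool.Agent.H550R3.Jones.taskSanSkein v hv h1

/-- The two crossings are inverse to each other. -/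
theorem cross_inverse (N : ℕ) (v : ℂ) (hv : v ≠ 0)
    (h : ∀ k : ℕ, 0 < k → k < N → br v k ≠ 0) :
    crossP N v * crossN N v = 1 ∧ crossN N v * crossP N v = 1 :=
  Pool.Agent.H309R4.Jones.SanI.taskSanInv Pool.Agent.H345J.taskMod Pool.Agent.H345J.taskInv
    Pool.Agent.H559R3.J.taskCross N v ⟨hv, h⟩

/-- The Yang-Baxter equation, for every colour. -/
theorem yang_baxter (N : ℕ) (v : ℂ) (hv : v ≠ 0) (h : ∀ k : ℕ, 0 < k → k < N → br v k ≠ 0) :
    gen (crossP N v) 3 0 * gen (crossP N v) 3 1 * gen (crossP N v) 3 0 =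
      gen (crossP N v) 3 1 * gen (crossP N v) 3 0 * gen (crossP N v) 3 1 :=
  Pool.Agent.H927R2.J.SanYB.taskSanYB Pool.Agent.H345J.taskMod Pool.Agent.H345J.taskInt
    Pool.Agent.H345J.taskInv Pool.Agent.H667J.taskHex1 Pool.Agent.H22R3.J.taskNat
    Pool.Agent.H559R3.J.taskCross N v ⟨hv, h⟩

/-- Curls may be removed: the framing is normalised. -/
theorem curl (N : ℕ) (v : ℂ) (hv : v ≠ 0) (h : ∀ k : ℕ, 0 < k → k < N → br v k ≠ 0) :
    (fun i j => ∑ x : Fin N, v ^ ((N : ℤ) - 1 - 2 * (x : ℕ)) * crossP N v (i, x) (j, x)) =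
      (1 : Matrix (Fin N) (Fin N) ℂ) ∧
    (fun i j => ∑ x : Fin N, v ^ ((N : ℤ) - 1 - 2 * (x : ℕ)) * crossN N v (i, x) (j, x)) =
      (1 : Matrix (Fin N) (Fin N) ℂ) :=
  Pool.Agent.H105R3.JSan.taskSanCurl N v ⟨hv, h⟩

/-- The unknot has the value `1`. -/
theorem unknot (N : ℕ) (v : ℂ) (hN : 0 < N) (hv : v ≠ 0)
    (h : ∀ k : ℕ, 0 < k → k < N → br v k ≠ 0) :
    cjones N 0 [] v = 1 ∧ cjones N 1 [(0, true)] v = 1 ∧ cjones N 1 [(0, false)] v = 1 :=
  Pool.Agent.H309R4.Jones.SanU.taskSanUnknot N v hN ⟨hv, h⟩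

/-! ### Bridges -/

lemma cjones_eq (N n : ℕ) (w : List (ℕ × Bool)) (v : ℂ) :
    cjones N n w v = Pool.Agent.H550R3.Jones.cjones N n w v := rfl

lemma kashaev_phase {N : ℕ} (hN : 0 < N) {u : List (ℕ × Bool)} (hu : IsWord u) (n : ℕ) :
    kashaev (pal u n) N = -Complex.exp (3 * (Real.pi : ℂ) * Complex.I / N) *
      ((Pool.Agent.R807.Phase.tN u n N : ℝ) : ℂ) :=
  Pool.Agent.R807.Phase.cjones_phase hN hu n

lemma tN_ge {N n : ℕ} (hN : 0 < N) (hn : 1 ≤ n) {u : List (ℕ × Bool)} (hu : IsWord u) :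
    -(N : ℝ) ^ 3 ≤ Pool.Agent.R807.Phase.tN u n N :=
  (Pool.Agent.R807.Phase.trace_real hN hu n).2 (by omega)

lemma set_eq (A n : ℕ) : {W : ℝ | ∃ w : ℤ → ℝ, IsAngle A n w ∧ vol A n w = W} =
    {W : ℝ | ∃ w, Pool.Agent.W719.BX.bAngleN A n w ∧ Pool.Agent.W719.BX.bvolN A n w = W} := rfl

lemma spec {A n : ℕ} (hA : 1 ≤ A) (hA3 : A ≠ 3) (hn : 1 ≤ n) :
    (4 ≤ A → IsGreatest {W : ℝ | ∃ w : ℤ → ℝ, IsAngle A n w ∧ vol A n w = W} (V A n)) ∧
    0 < V A n ∧ (∀ᶠ N : ℕ in atTop, 0 < Pool.Agent.R807.Phase.tN (power A) n N) ∧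
    Tendsto (fun N : ℕ => 2 * Real.pi / N *
      Real.log (Pool.Agent.R807.Phase.tN (power A) n N)) atTop (𝓝 (V A n)) := by
  have hu : IsWord (power A) := Pool.Agent.R807.Phase.hu_uA A
  by_cases h1 : A = 1
  · subst h1
    have e : V 1 n = n * (8 * Lob (Real.pi / 6)) := if_pos rfl
    rw [e]
    obtain ⟨g1, g2⟩ := Pool.Agent.R807.Phase.fam_one hn
    obtain ⟨g3, g4⟩ := Pool.Agent.R807.Phase.phase_main hu (by omega : n ≠ 0) g1 g2
    exact ⟨fun h => absurd h (by norm_num), g1, g3, g4⟩
  by_cases h2 : A = 2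
  · subst h2
    have e : V 2 n = n * (16 * Lob (Real.pi / 4)) := by
      unfold V
      rw [if_neg (by norm_num), if_pos rfl]
    rw [e]
    obtain ⟨g1, g2⟩ := Pool.Agent.R807.Phase.fam_two hn
    obtain ⟨g3, g4⟩ := Pool.Agent.R807.Phase.phase_main hu (by omega : n ≠ 0) g1 g2
    exact ⟨fun h => absurd h (by norm_num), g1, g3, g4⟩
  · have e : V A n = sSup {W : ℝ | ∃ w : ℤ → ℝ, IsAngle A n w ∧ vol A n w = W} := by
      unfold V
      rw [if_neg h1, if_neg h2]
    obtain ⟨W, g1, g2, g3⟩ := Pool.Agent.R807.Phase.fam_four (A := A) (n := n) (by omega) hn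
    rw [← set_eq] at g1
    rw [e, g1.csSup_eq]
    obtain ⟨g4, g5⟩ := Pool.Agent.R807.Phase.phase_main hu (by omega : n ≠ 0) g2 g3
    exact ⟨fun _ => g1, g2, g4, g5⟩

lemma kashaev_ne {N : ℕ} {A n : ℕ} (h : kashaev (pal (power A) n) N =
    -Complex.exp (3 * (Real.pi : ℂ) * Complex.I / N) *
      ((Pool.Agent.R807.Phase.tN (power A) n N : ℝ) : ℂ))
    (ht : 0 < Pool.Agent.R807.Phase.tN (power A) n N) : kashaev (pal (power A) n) N ≠ 0 := by
  rw [h]
  exact mul_ne_zero (neg_ne_zero.2 (Complex.exp_ne_zero _)) (by exact_mod_cast ht.ne')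

lemma cont {N : ℕ} (hN : 1 ≤ N) (w : List (ℕ × Bool)) :
    ContinuousAt (cjones N 3 (linkWord w)) (root N) := by
  have hv : root N = EvenVol.v0 N := rfl
  rw [hv]
  refine Pool.Agent.H756R3.J.taskCont N (EvenVol.v0 N) (Complex.exp_ne_zero _) ?_ _ _
  intro k hk0 hkN
  exact Pool.Agent.W715.VC.br_ne (by omega) (by omega)

/-- `N → ∞` through the odd integers. -/
def oddTop : Filter ℕ := atTop ⊓ 𝓟 {N | Odd N}

lemma odd_shift : Tendsto (fun N => N + 2) oddTop oddTop := by
  refine tendsto_inf.2 ⟨(tendsto_add_atTop_nat 2).mono_left inf_le_left, ?_⟩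
  refine tendsto_inf_right ?_
  refine tendsto_principal_principal.2 fun N hN => ?_
  exact hN.add_even (by decide)

lemma odd_sub : Tendsto (fun k : ℕ => 2 * k + 1) atTop oddTop := by
  refine tendsto_inf.2 ⟨tendsto_atTop_mono (fun k => (by omega : k ≤ 2 * k + 1)) tendsto_id, ?_⟩
  exact tendsto_principal.2 (Eventually.of_forall fun k => ⟨k, rfl⟩)

instance : NeBot oddTop := odd_sub.neBot

/-- **The complexified volume conjecture at odd roots of unity for closures of palindromic 3-braids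
with their axes.**
(1) For every `N ≥ 1` and every word `w` on three strands the coloured Jones polynomial of `L(w)` is
continuous at `v_N`, so that `kashaev w N` is its value at `q = e^(2 π i / N)` in the usual sense.
(2) For every word `u` on three strands and all `N, n ≥ 1` the Kashaev invariant of `L((u u*)^n)` is
`- e^(3 π i / N) t` with a real number `t ≥ - N³`.
(3) For `A ≥ 4` the volume has the maximum `V(A, n)` on the angle structures of the layered
triangulation of the complement of `L((s_1^A s_2^{-A})^n)`.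
(4) Let `a_N` be the Kashaev invariant of `L((s_1^A s_2^{-A})^n)`, `A = 1`, `A = 2` or `A ≥ 4`,
`n ≥ 1`.  As `N → ∞` through the odd integers: `a_N ≠ 0` for large `N`; the phase of
`a_{N+2} / a_N` tends to `0`, that is, the imaginary part of `π log (a_{N+2} / a_N)` converges to `0`;
`(2 π / N) log |a_N|` tends to `V(A, n)`; and if `a_{N+2} / a_N` converges then its limit is
`exp (V(A, n) / π)`, that is, `π log (a_{N+2} / a_N)` converges to `V(A, n) + 0 i`. -/
theorem result :
    (∀ (N : ℕ) (w : List (ℕ × Bool)), 1 ≤ N → ContinuousAt (cjones N 3 (linkWord w)) (root N)) ∧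
    (∀ (N n : ℕ) (u : List (ℕ × Bool)), 1 ≤ N → 1 ≤ n → IsWord u →
      ∃ t : ℝ, -(N : ℝ) ^ 3 ≤ t ∧
        kashaev (pal u n) N = -Complex.exp (3 * (Real.pi : ℂ) * Complex.I / N) * (t : ℂ)) ∧
    (∀ A n : ℕ, 4 ≤ A → 1 ≤ n →
      IsGreatest {W : ℝ | ∃ w : ℤ → ℝ, IsAngle A n w ∧ vol A n w = W} (V A n)) ∧
    (∀ A n : ℕ, 1 ≤ A → A ≠ 3 → 1 ≤ n → 0 < V A n ∧
      (∀ᶠ N in oddTop, kashaev (pal (power A) n) N ≠ 0) ∧
      Tendsto (fun N => kashaev (pal (power A) n) (N + 2) / kashaev (pal (power A) n) N /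
        (‖kashaev (pal (power A) n) (N + 2) / kashaev (pal (power A) n) N‖ : ℝ))
          oddTop (𝓝 1) ∧
      Tendsto (fun N : ℕ => 2 * Real.pi * (Real.log ‖kashaev (pal (power A) n) N‖ / N)) oddTop
        (𝓝 (V A n)) ∧
      (∀ c : ℂ, Tendsto (fun N => kashaev (pal (power A) n) (N + 2) / kashaev (pal (power A) n) N)
        oddTop (𝓝 c) → c = Complex.exp (V A n / Real.pi))) := by
  refine ⟨fun N w hN => cont hN w, ?_, ?_, ?_⟩
  · intro N n u hN hn hu
    exact ⟨_, tN_ge hN hn hu, kashaev_phase hN hu n⟩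
  · intro A n hA hn
    exact (spec (A := A) (by omega) (by omega) hn).1 hA
  · intro A n hA hA3 hn
    obtain ⟨-, h1, h2, h3⟩ := spec hA hA3 hn
    have hev : oddTop ≤ atTop := inf_le_left
    have hu : IsWord (power A) := Pool.Agent.R807.Phase.hu_uA A
    have hJ : ∀ᶠ N in atTop, kashaev (pal (power A) n) N =
        -Complex.exp (3 * (Real.pi : ℂ) * Complex.I / N) *
          ((Pool.Agent.R807.Phase.tN (power A) n N : ℝ) : ℂ) := by
      filter_upwards [eventually_gt_atTop 0] with N hN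
      exact kashaev_phase hN hu n
    refine ⟨h1, ?_, ?_, ?_, ?_⟩
    · refine Eventually.filter_mono hev ?_
      filter_upwards [hJ, h2] with N g1 g2
      exact kashaev_ne g1 g2
    · exact Pool.Agent.R807.Ratio.phase_ratio 2 odd_shift (hJ.filter_mono hev)
        (h2.filter_mono hev) (Eventually.of_forall Pool.Agent.R807.Ratio.exp_norm)
        (Pool.Agent.R807.Ratio.exp_tendsto.mono_left hev) (by norm_num)
    · refine Tendsto.mono_left ?_ hev
      refine h3.congr' ?_
      filter_upwards [hJ, h2] with N g1 g2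
      rw [g1, norm_mul, Pool.Agent.R807.Ratio.exp_norm, one_mul, Complex.norm_real,
        Real.norm_eq_abs, abs_of_pos g2]
      ring
    · intro c hc
      obtain ⟨c1, c2⟩ := Pool.Agent.R807.Ratio.ratio_real 2 odd_shift (hJ.filter_mono hev)
        (h2.filter_mono hev) (Pool.Agent.R807.Ratio.exp_tendsto.mono_left hev) (by norm_num) hc
      have c3 := Pool.Agent.R807.Ratio.ratio_lim
        (b := fun k => Pool.Agent.R807.Phase.tN (power A) n (2 * k + 1)) (c := c.re)
        (odd_sub.eventually (h2.filter_mono hev)) (Pool.Agent.R807.Ratio.odd_growth h3)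
        (by
          refine (c2.comp odd_sub).congr fun k => ?_
          rfl)
      rw [← c1, c3, Complex.ofReal_exp]
      push_cast
      rfl

end Pool.Agent.Results.MP_b30479_gt.BraidAxisOdd
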