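import Pool.Agent.R807.Cut2
import Pool.Agent.W613.QAT.Cont
import Pool.Agent.W193.QAT.R1
import Pool.Agent.W591.QAT.Reid
import Pool.Agent.W683.QAT.Slide
import Pool.Agent.H550R3.Jones.SanSkein699

/-!
# An upper bound for the growth of the Kashaev invariants of all links by the number of crossings

Let a link diagram with `c` crossings be cut open at a point.  Suppose that one end of the open strand
passes over `a` crossings and then under a crossing, and that the other end passes under `b` crossings
and then over a crossing (these crossings being different).  Then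
`limsup (2 π / N) log |⟨L⟩_N| ≤ (c - a - b - 2) v_8 + 4 v_3`,
where `v_3 = 3 Λ(π/3) = 1.01494…` and `v_8 = 8 Λ(π/4) = 3.66386…` are the volumes of the regular
ideal tetrahedron and octahedron.  For an alternating diagram `a = b = 1`, and the bound is
`(c - 4) v_8 + 4 v_3`.

A link diagram, cut open at one point, is a list of pieces from bottom to top: cups, caps, and
twist regions (`m` crossings in a row of two neighbouring strands; one crossing for `m = 1`).
Everything is defined from the R-matrix of `U_q(sl_2)`, with `v = q^{1/2}` and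
`{k} = v^k - v^{-k}`.  The `N`-coloured Jones polynomial is the (scalar) operator of the
(1,1)-tangle, read off at the highest weight vector.  The Kashaev invariant is its value at
`v = exp (π i / N)`, that is `q = exp (2 π i / N)`; changes of the framing and of the orientations
multiply it by a number of absolute value `1`.
-/

set_option autoImplicit false

namespace Pool.Agent.Results.MP_b30479_gt.CrossingBoundOdd

open Finset Filter Topology

/-! ### The coloured Jones polynomial -/

/-- `{n} = v^n - v^{-n}` -/
noncomputable def br (v : ℂ) (n : ℤ) : ℂ := v ^ n - v ^ (-n)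

/-- `{n}! = {1} {2} ⋯ {n}` -/
noncomputable def brf (v : ℂ) (n : ℕ) : ℂ := ∏ j ∈ range n, br v ((j : ℤ) + 1)

/-- The positive crossing: the R-matrix of `U_q(sl_2)` on `V_N ⊗ V_N`, `V_N` with basis
`e_0, …, e_{N-1}`, times the framing factor `v^{-(N^2-1)/2}`; `crossP N v p q` is the coefficient
of `e_{p.1} ⊗ e_{p.2}` in the image of `e_{q.1} ⊗ e_{q.2}`:
`e_i ⊗ e_j ↦ ∑_n v^{-(N-1)(1+i+j) + 2(i-n)(j+n) + n(n-1)/2}
({j+n}! / ({j}! {n}!)) ∏_{t<n} {N-i+t} e_{j+n} ⊗ e_{i-n}`. -/
noncomputable def crossP (N : ℕ) (v : ℂ) : Matrix (Fin N × Fin N) (Fin N × Fin N) ℂ :=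
  fun p q => if (p.1 : ℕ) + p.2 = q.1 + q.2 ∧ (q.2 : ℕ) ≤ p.1 then
    v ^ (-((N : ℤ) - 1) * (1 + (q.1 : ℕ) + (q.2 : ℕ)) + 2 * (p.1 : ℕ) * (p.2 : ℕ)) *
      v ^ (((p.1 : ℕ) - q.2) * ((p.1 : ℕ) - q.2 - 1) / 2) *
      (brf v p.1 / (brf v q.2 * brf v ((p.1 : ℕ) - q.2))) *
      ∏ t ∈ range ((p.1 : ℕ) - q.2), br v ((N : ℤ) - (q.1 : ℕ) + t)
    else 0

/-- The negative crossing, inverse of `crossP N v`:
`e_i ⊗ e_j ↦ ∑_n (-1)^n v^{(N-1)(1+i+j) - 2ij - n(n-1)/2}
({i+n}! / ({i}! {n}!)) ∏_{t<n} {N-j+t} e_{j-n} ⊗ e_{i+n}`. -/
noncomputable def crossN (N : ℕ) (v : ℂ) : Matrix (Fin N × Fin N) (Fin N × Fin N) ℂ :=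
  fun p q => if (p.1 : ℕ) + p.2 = q.1 + q.2 ∧ (q.1 : ℕ) ≤ p.2 then
    (-1) ^ ((p.2 : ℕ) - q.1) *
      v ^ (((N : ℤ) - 1) * (1 + (q.1 : ℕ) + (q.2 : ℕ)) - 2 * (q.1 : ℕ) * (q.2 : ℕ)) /
      v ^ (((p.2 : ℕ) - q.1) * ((p.2 : ℕ) - q.1 - 1) / 2) *
      (brf v p.2 / (brf v q.1 * brf v ((p.2 : ℕ) - q.1))) *
      ∏ t ∈ range ((p.2 : ℕ) - q.1), br v ((N : ℤ) - (q.2 : ℕ) + t)
    else 0

/-- The coefficients of the invariant vector `∑_k kap k e_k ⊗ e_{N-1-k}` of `V_N ⊗ V_N`:
`kap k = (-1)^k v^{k(N-2-k)} {k}! {N-1-k}! / {N-1}!`. -/
noncomputable def kap (N : ℕ) (v : ℂ) (k : ℕ) : ℂ :=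
  (-1) ^ k * v ^ ((k : ℤ) * ((N : ℤ) - 2 - k)) * (brf v k * brf v (N - 1 - k) / brf v (N - 1))

/-- The cup: the invariant vector of `V_N ⊗ V_N`. -/
noncomputable def cup (N : ℕ) (v : ℂ) (p : Fin N × Fin N) : ℂ :=
  if (p.1 : ℕ) + p.2 = N - 1 then kap N v p.1 else 0

/-- The cap: the invariant linear form on `V_N ⊗ V_N`. -/
noncomputable def cap (N : ℕ) (v : ℂ) (p : Fin N × Fin N) : ℂ :=
  if (p.1 : ℕ) + p.2 = N - 1 then (kap N v p.2)⁻¹ else 0

/-! ### Tangle diagrams -/

/-- The pieces of a diagram.  Strands are counted from `0`, from left to right.  `cup i` creates the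
strands `i` and `i + 1`, `cap i` closes the strands `i` and `i + 1`, `twist i σ m` is a twist region:
`m` crossings of the strands `i` and `i + 1`, all positive (`σ = true`) or all negative. -/
inductive Piece
  | cup (i : ℕ)
  | cap (i : ℕ)
  | twist (i : ℕ) (σ : Bool) (m : ℕ)

/-- The number of strands above a piece that has `n` strands below it. -/
def Piece.strands : Piece → ℕ → Option ℕ
  | .cup i, n => if i ≤ n then some (n + 2) else none
  | .cap i, n => if i + 2 ≤ n then some (n - 2) else none
  | .twist i _ _, n => if i + 2 ≤ n then some n else none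

/-- A diagram: the list of its pieces from bottom to top. -/
abbrev Diagram := List Piece

/-- `D` is the diagram of a tangle with `n` strands at the bottom and `k` strands at the top.  (The
closure of a (1,1)-tangle is a link, and every link arises in this way.) -/
def IsTangle (D : Diagram) (n k : ℕ) : Prop :=
  D.foldl (fun n P => n.bind P.strands) (some n) = some k

/-- The operator of a piece.  A vector of `V_N ⊗ ⋯ ⊗ V_N` is given by its coefficients with respect
to the basis vectors `e_{s_0} ⊗ ⋯ ⊗ e_{s_{n-1}}`, indexed by the lists `s = [s_0, …, s_{n-1}]`. -/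
noncomputable def Piece.act (N : ℕ) (v : ℂ) : Piece → (List (Fin N) → ℂ) → List (Fin N) → ℂ
  | .cup i, f => fun s => match s.drop i with
      | a :: b :: r => CrossingBoundOdd.cup N v (a, b) * f (s.take i ++ r)
      | _ => 0
  | .cap i, f => fun s =>
      ∑ p : Fin N × Fin N, CrossingBoundOdd.cap N v p * f (s.take i ++ p.1 :: p.2 :: s.drop i)
  | .twist i σ m, f => fun s => match s.drop i with
      | a :: b :: r => ∑ p : Fin N × Fin N,
          ((if σ then crossP N v else crossN N v) ^ m) (a, b) p * f (s.take i ++ p.1 :: p.2 :: r)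
      | _ => 0

/-- The operator of a diagram. -/
noncomputable def run (N : ℕ) (v : ℂ) (D : Diagram) (f : List (Fin N) → ℂ) : List (Fin N) → ℂ :=
  D.foldl (fun g P => P.act N v g) f

/-- The `N`-coloured Jones polynomial of the closure of a (1,1)-tangle (unknot `= 1`; all components
coloured `N`) at `q = v^2`, up to sign and powers of `v`: the entry of the operator of the tangle at
the highest weight vector `e_0`. -/
noncomputable def jones (N : ℕ) (D : Diagram) (v : ℂ) : ℂ :=
  if h : 0 < N then run N v D (fun s => if s = [⟨0, h⟩] then 1 else 0) [⟨0, h⟩] else 0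

/-- `v_N = exp (π i / N)`, so that `q = v_N^2 = exp (2 π i / N)`. -/
noncomputable def root (N : ℕ) : ℂ := Complex.exp (Real.pi * Complex.I / N)

/-- The Kashaev invariant, up to a factor of absolute value `1` (framing, sign). -/
noncomputable def kashaev (D : Diagram) (N : ℕ) : ℂ := jones N D (root N)

/-! ### The constants -/

/-- Lobachevsky's function `Λ(x) = -∫_0^x log |2 sin t| dt`. -/
noncomputable def Lob (x : ℝ) : ℝ := -∫ t in (0 : ℝ)..x, Real.log |2 * Real.sin t|

/-- the volume of the regular ideal tetrahedron -/
noncomputable def v3 : ℝ := 3 * Lob (Real.pi / 3)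

/-- the volume of the regular ideal octahedron -/
noncomputable def v8 : ℝ := 8 * Lob (Real.pi / 4)

/-- the bound for a twist region of `m` crossings -/
noncomputable def rate (m : ℕ) : ℝ := min (m * v8) (10 * v3)

/-! ### Following the two ends of the open strand

At a positive crossing the strand from the lower left to the upper right passes over, at a negative
crossing the strand from the lower right to the upper left. -/

/-- The number of crossings of a piece. -/
def Piece.size : Piece → ℕ
  | .twist _ _ m => m
  | _ => 0

/-- The number of crossings of a diagram. -/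
def crossings (D : Diagram) : ℕ := (D.map Piece.size).sum

/-- The growth rate of a piece: `rate m` for a twist region of `m` crossings, `0` for cups, caps. -/
noncomputable def Piece.rate : Piece → ℝ
  | .twist _ _ m => CrossingBoundOdd.rate m
  | _ => 0

/-- A strand which enters the piece from below at the position `p` is followed upwards as long as it
passes over.  The first entry of `up (some p) P` is its position above the piece, or `none` if it
turns back in a cap, passes under the crossing, or meets a twist region with `m ≠ 1` crossings; from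
then on it is no longer followed (`up none P`).  The second entry is the contribution of the piece:
`0` for a crossing where the strand passes over, `2 v_3` for a crossing where it passes under, and
`rate m` in all other cases. -/
noncomputable def up : Option ℕ → Piece → Option ℕ × ℝ
  | none, P => (none, P.rate)
  | some p, .cup i => (some (if i ≤ p then p + 2 else p), 0)
  | some p, .cap i => (if i + 1 < p then some (p - 2) else if p < i then some p else none, 0)
  | some p, .twist i σ m =>
      if i + 1 < p ∨ p < i then (some p, CrossingBoundOdd.rate m)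
      else if m = 1 then
        (if p = i then (if σ then (some (i + 1), 0) else (none, 2 * v3))
        else (if σ then (none, 2 * v3) else (some i, 0)))
      else (none, CrossingBoundOdd.rate m)

/-- A strand which enters the piece from above at the position `p` is followed downwards as long as it
passes under; conventions as in `up`, with over and under exchanged. -/
noncomputable def down : Option ℕ → Piece → Option ℕ × ℝ
  | none, P => (none, P.rate)
  | some p, .cup i => (if i + 1 < p then some (p - 2) else if p < i then some p else none, 0)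
  | some p, .cap i => (some (if i ≤ p then p + 2 else p), 0)
  | some p, .twist i σ m =>
      if i + 1 < p ∨ p < i then (some p, CrossingBoundOdd.rate m)
      else if m = 1 then
        (if p = i then (if σ then (some (i + 1), 0) else (none, 2 * v3))
        else (if σ then (none, 2 * v3) else (some i, 0)))
      else (none, CrossingBoundOdd.rate m)

/-- The sum of the contributions of the pieces, from bottom to top. -/
noncomputable def low : Option ℕ → Diagram → ℝ
  | _, [] => 0
  | o, P :: D => (up o P).2 + low (up o P).1 D

/-- The sum of the contributions of the pieces; the list runs from top to bottom. -/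
noncomputable def high : Option ℕ → Diagram → ℝ
  | _, [] => 0
  | o, P :: D => (down o P).2 + high (down o P).1 D

/-- A strand which enters the diagram from below at the position `p` is followed upwards.  The first
entry is the number of crossings where it passes over before it passes under; the second entry is `1`
if it then passes under a crossing (twist region with one crossing), and `0` if it stops being
followed for another reason (as in `up`, or because it reaches the top of the diagram). -/
def overs : ℕ → Diagram → ℕ × ℕ
  | _, [] => (0, 0)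
  | p, .cup i :: D => overs (if i ≤ p then p + 2 else p) D
  | p, .cap i :: D => if i + 1 < p then overs (p - 2) D else if p < i then overs p D else (0, 0)
  | p, .twist i σ m :: D =>
      if i + 1 < p ∨ p < i then overs p D
      else if m = 1 then
        (if p = i then (if σ then ((overs (i + 1) D).1 + 1, (overs (i + 1) D).2) else (0, 1))
        else (if σ then (0, 1) else ((overs i D).1 + 1, (overs i D).2)))
      else (0, 0)

/-- A strand which enters the diagram from above at the position `p` is followed downwards (the list
runs from top to bottom).  The first entry is the number of crossings where it passes under before it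
passes over; the second entry is `1` if it then passes over a crossing, and `0` otherwise. -/
def unders : ℕ → Diagram → ℕ × ℕ
  | _, [] => (0, 0)
  | p, .cup i :: D => if i + 1 < p then unders (p - 2) D else if p < i then unders p D else (0, 0)
  | p, .cap i :: D => unders (if i ≤ p then p + 2 else p) D
  | p, .twist i σ m :: D =>
      if i + 1 < p ∨ p < i then unders p D
      else if m = 1 then
        (if p = i then (if σ then ((unders (i + 1) D).1 + 1, (unders (i + 1) D).2) else (0, 1))
        else (if σ then (0, 1) else ((unders i D).1 + 1, (unders i D).2)))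
      else (0, 0)

/-! ### Translation to the library -/

/-- the pieces of the library -/
def tr : Piece → Pool.Agent.W709.QAT.Piece
  | .cup i => .cup i
  | .cap i => .cap i
  | .twist i σ m => .twist i σ m

lemma act_eq (N : ℕ) (v : ℂ) (P : Piece) (f : List (Fin N) → ℂ) :
    P.act N v f = (tr P).act N v f := by
  cases P with
  | cup i =>
    funext s
    simp only [Piece.act, tr, Pool.Agent.W709.QAT.Piece.act]
    rcases s.drop i with _ | ⟨a, _ | ⟨b, r⟩⟩ <;> rfl
  | cap i => rfl
  | twist i σ m =>
    funext s
    simp only [Piece.act, tr, Pool.Agent.W709.QAT.Piece.act]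
    rcases s.drop i with _ | ⟨a, _ | ⟨b, r⟩⟩ <;> rfl

lemma run_eq (N : ℕ) (v : ℂ) (D : Diagram) (f : List (Fin N) → ℂ) :
    run N v D f = Pool.Agent.W709.QAT.run N v (D.map tr) f := by
  unfold run Pool.Agent.W709.QAT.run
  induction D generalizing f with
  | nil => rfl
  | cons P D ih =>
    rw [List.map_cons, List.foldl_cons, List.foldl_cons, act_eq, ih]

lemma jones_eq (N : ℕ) (D : Diagram) :
    jones N D = Pool.Agent.W709.QAT.jones N (D.map tr) := by
  funext v
  unfold jones Pool.Agent.W709.QAT.jones
  split_ifs with h
  · rw [run_eq]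
  · rfl

lemma kashaev_eq (N : ℕ) (D : Diagram) : kashaev D N =
    Pool.Agent.W709.QAT.jones N (D.map tr) (Pool.Agent.W715.VC.rt N) := by
  unfold kashaev
  rw [jones_eq]
  rfl

lemma strands_eq (P : Piece) (n : ℕ) : (tr P).strands n = P.strands n := by
  cases P <;> rfl

lemma tangle_eq (D : Diagram) (n k : ℕ) :
    IsTangle D n k ↔ Pool.Agent.R807.Cut.Valid n (D.map tr) k := by
  unfold IsTangle Pool.Agent.R807.Cut.Valid
  have h : ∀ o : Option ℕ, D.foldl (fun n P => n.bind P.strands) o =
      (D.map tr).foldl (fun n P => n.bind P.strands) o := by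
    induction D with
    | nil => intro o; rfl
    | cons P D ih =>
      intro o
      rw [List.map_cons, List.foldl_cons, List.foldl_cons, ← ih]
      congr 1
      cases o with
      | none => rfl
      | some m => exact (strands_eq P m).symm
  rw [h]

lemma lob_eq (x : ℝ) : Lob x = GapVol.lob x := rfl

lemma rate_eq (m : ℕ) : rate m = Pool.Agent.W709.QAT.rate m := by
  unfold rate Pool.Agent.W709.QAT.rate v3 v8
  rw [lob_eq, lob_eq]
  congr 1
  ring

lemma half_eq : 2 * v3 = Pool.Agent.R807.Cut.half := by
  unfold v3 Pool.Agent.R807.Cut.half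
  rw [lob_eq, GapVol.lob_dup]
  ring

lemma prate_eq (P : Piece) : P.rate = Pool.Agent.R807.Cut.prate (tr P) := by
  cases P with
  | cup i => rfl
  | cap i => rfl
  | twist i σ m => exact rate_eq m

lemma up_eq (o : Option ℕ) (P : Piece) : up o P = Pool.Agent.R807.Cut.up o (tr P) := by
  cases o with
  | none => simp only [up, Pool.Agent.R807.Cut.up, prate_eq]
  | some p =>
    cases P with
    | cup i => rfl
    | cap i => rfl
    | twist i σ m => simp only [up, tr, Pool.Agent.R807.Cut.up, rate_eq, half_eq]

lemma down_eq (o : Option ℕ) (P : Piece) : down o P = Pool.Agent.R807.Cut.down o (tr P) := by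
  cases o with
  | none => simp only [down, Pool.Agent.R807.Cut.down, prate_eq]
  | some p =>
    cases P with
    | cup i => rfl
    | cap i => rfl
    | twist i σ m => simp only [down, tr, Pool.Agent.R807.Cut.down, rate_eq, half_eq]

lemma low_eq (D : Diagram) : ∀ o, low o D = Pool.Agent.R807.Cut.low o (D.map tr) := by
  induction D with
  | nil => intro o; rfl
  | cons P D ih =>
    intro o
    simp only [low, List.map_cons, Pool.Agent.R807.Cut.low, ih, up_eq]

lemma high_eq (D : Diagram) : ∀ o, high o D = Pool.Agent.R807.Cut.high o (D.map tr) := by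
  induction D with
  | nil => intro o; rfl
  | cons P D ih =>
    intro o
    simp only [high, List.map_cons, Pool.Agent.R807.Cut.high, ih, down_eq]

lemma overs_eq (D : Diagram) : ∀ p, overs p D = Pool.Agent.R807.Cut.overs p (D.map tr) := by
  induction D with
  | nil => intro p; rfl
  | cons P D ih =>
    intro p
    cases P with
    | cup i => simp only [overs, List.map_cons, tr, Pool.Agent.R807.Cut.overs, ih]
    | cap i => simp only [overs, List.map_cons, tr, Pool.Agent.R807.Cut.overs, ih]
    | twist i σ m => simp only [overs, List.map_cons, tr, Pool.Agent.R807.Cut.overs, ih]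

lemma unders_eq (D : Diagram) : ∀ p, unders p D = Pool.Agent.R807.Cut.unders p (D.map tr) := by
  induction D with
  | nil => intro p; rfl
  | cons P D ih =>
    intro p
    cases P with
    | cup i => simp only [unders, List.map_cons, tr, Pool.Agent.R807.Cut.unders, ih]
    | cap i => simp only [unders, List.map_cons, tr, Pool.Agent.R807.Cut.unders, ih]
    | twist i σ m => simp only [unders, List.map_cons, tr, Pool.Agent.R807.Cut.unders, ih]

lemma crossings_eq (D : Diagram) : crossings D = Pool.Agent.R807.Cut.cr (D.map tr) := by
  induction D with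
  | nil => rfl
  | cons P D ih =>
    unfold crossings at ih ⊢
    rw [List.map_cons, List.sum_cons, List.map_cons, ih]
    cases P with
    | cup i => rw [tr, Pool.Agent.R807.Cut.cr_cup]; simp [Piece.size]
    | cap i => rw [tr, Pool.Agent.R807.Cut.cr_cap]; simp [Piece.size]
    | twist i σ m => rw [tr, Pool.Agent.R807.Cut.cr_twist]; rfl

/-! ### Checks of the definitions (not part of the result)

For `N = 2` the skein relation; the moves that generate the isotopies of diagrams of unoriented
links, up to a factor `c` with `|c| = 1` for `|v| = 1`. -/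

/-- For `N = 2` the crossings satisfy the skein relation of the Jones polynomial. -/
theorem skein (v : ℂ) (hv : v ≠ 0) (h1 : br v 1 ≠ 0) :
    v ^ 2 • crossP 2 v - (v ^ 2)⁻¹ • crossN 2 v =
      (v - v⁻¹) • (1 : Matrix (Fin 2 × Fin 2) (Fin 2 × Fin 2) ℂ) :=
  Pool.Agent.H550R3.Jones.taskSanSkein v hv h1

/-- Zigzag. -/
theorem zigzag (N : ℕ) (v : ℂ) (hv : v ≠ 0) (h : ∀ k : ℕ, 0 < k → k < N → br v k ≠ 0)
    (f : List (Fin N) → ℂ) (i : ℕ) (s : List (Fin N)) (hi : i < s.length) :
    run N v [.cup (i + 1), .cap i] f s = f s ∧ run N v [.cup i, .cap (i + 1)] f s = f s := by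
  rw [run_eq, run_eq]
  exact Pool.Agent.W591.QAT.zz N v hv h f i s hi

/-- The first Reidemeister move (four cases). -/
theorem reidemeister_one (N : ℕ) (v : ℂ) (hv : v ≠ 0) (h : ∀ k : ℕ, 0 < k → k < N → br v k ≠ 0)
    (hN : 0 < N) (f : List (Fin N) → ℂ) (i : ℕ) (s : List (Fin N)) :
    (i + 2 ≤ s.length →
      run N v [.cup i, .twist i true 1] f s =
        (-1) ^ (N - 1) * v ^ (-((N : ℤ) ^ 2 - 1)) * run N v [.cup i] f s ∧
      run N v [.cup i, .twist i false 1] f s =
        (-1) ^ (N - 1) * v ^ ((N : ℤ) ^ 2 - 1) * run N v [.cup i] f s) ∧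
    (i ≤ s.length →
      run N v [.twist i true 1, .cap i] f s =
        (-1) ^ (N - 1) * v ^ (-((N : ℤ) ^ 2 - 1)) * run N v [.cap i] f s ∧
      run N v [.twist i false 1, .cap i] f s =
        (-1) ^ (N - 1) * v ^ ((N : ℤ) ^ 2 - 1) * run N v [.cap i] f s) := by
  simp only [run_eq]
  exact ⟨fun hi => ⟨Pool.Agent.W193.QAT.r1 N v hv h hN f i s hi,
      Pool.Agent.W193.QAT.r1n N v hv h hN f i s hi⟩,
    fun hi => ⟨Pool.Agent.W193.QAT.r1c N v hv h hN f i s hi,
      Pool.Agent.W193.QAT.r1cn N v hv h hN f i s hi⟩⟩

/-- The second and the third Reidemeister move. -/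
theorem reidemeister_two_three (N : ℕ) (v : ℂ) (hv : v ≠ 0)
    (h : ∀ k : ℕ, 0 < k → k < N → br v k ≠ 0) (f : List (Fin N) → ℂ) (i : ℕ) (s : List (Fin N)) :
    (i + 2 ≤ s.length →
      run N v [.twist i true 1, .twist i false 1] f s = f s ∧
      run N v [.twist i false 1, .twist i true 1] f s = f s) ∧
    (i + 3 ≤ s.length →
      run N v [.twist i true 1, .twist (i + 1) true 1, .twist i true 1] f s =
      run N v [.twist (i + 1) true 1, .twist i true 1, .twist (i + 1) true 1] f s) := by
  rw [run_eq, run_eq, run_eq, run_eq]
  exact Pool.Agent.W591.QAT.reid N v hv h f i s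

/-- A strand slides over a cup and over a cap. -/
theorem slide (N : ℕ) (v : ℂ) (hv : v ≠ 0) (h : ∀ k : ℕ, 0 < k → k < N → br v k ≠ 0)
    (f : List (Fin N) → ℂ) (i : ℕ) (s : List (Fin N)) (σ : Bool) :
    (i + 3 ≤ s.length →
      run N v [.cup (i + 1), .twist i σ 1, .twist (i + 1) σ 1] f s =
        v ^ (if σ then -((N : ℤ) ^ 2 - 1) else (N : ℤ) ^ 2 - 1) * run N v [.cup i] f s ∧
      run N v [.cup i, .twist (i + 1) σ 1, .twist i σ 1] f s =
        v ^ (if σ then -((N : ℤ) ^ 2 - 1) else (N : ℤ) ^ 2 - 1) * run N v [.cup (i + 1)] f s) ∧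
    (i + 1 ≤ s.length →
      run N v [.twist i σ 1, .twist (i + 1) σ 1, .cap i] f s =
        v ^ (if σ then -((N : ℤ) ^ 2 - 1) else (N : ℤ) ^ 2 - 1) * run N v [.cap (i + 1)] f s ∧
      run N v [.twist (i + 1) σ 1, .twist i σ 1, .cap (i + 1)] f s =
        v ^ (if σ then -((N : ℤ) ^ 2 - 1) else (N : ℤ) ^ 2 - 1) * run N v [.cap i] f s) := by
  have e : Pool.Agent.W683.QAT.ct N v σ =
      v ^ (if σ then -((N : ℤ) ^ 2 - 1) else (N : ℤ) ^ 2 - 1) := by
    unfold Pool.Agent.W683.QAT.ct Pool.Agent.W683.QAT.cst
    cases σ
    · simp only [Bool.false_eq_true, if_false]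
      rw [zpow_neg, inv_inv]
    · simp only [if_true]
  rw [← e]
  simp only [run_eq]
  exact Pool.Agent.W683.QAT.slide_all N v hv h f i s σ

/-- A twist region is a stack of crossings. -/
theorem twist_succ (N : ℕ) (v : ℂ) (f : List (Fin N) → ℂ) (i m : ℕ) (σ : Bool)
    (s : List (Fin N)) (hi : i + 2 ≤ s.length) :
    run N v [.twist i σ m, .twist i σ 1] f s = run N v [.twist i σ (m + 1)] f s := by
  simp only [run_eq]
  exact Pool.Agent.W613.QAT.pow N v f i m σ s hi

/-- Example: the closure of the 3-braid `(s_1 s_2^{-1})^3` (Borromean rings), six crossings, cut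
into a lower part with two crossings and an upper part.  The bound of the result is
`(6 - 4) v_8 + 4 v_3`. -/
example : IsTangle ([.cup 1, .cup 2, .twist 0 true 1, .twist 1 false 1] ++
      [.twist 0 true 1, .twist 1 false 1, .twist 0 true 1, .twist 1 false 1, .cap 2, .cap 1]) 1 1 ∧
    overs 0 [.cup 1, .cup 2, .twist 0 true 1, .twist 1 false 1] = (1, 1) ∧
    unders 0 [.twist 0 true 1, .twist 1 false 1, .twist 0 true 1, .twist 1 false 1, .cap 2,
      .cap 1].reverse = (1, 1) := by
  refine ⟨by rfl, by decide, by decide⟩

/-! ### The result -/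

/-- **Growth of the Kashaev invariants of all links, in terms of crossings.**
(1) For every `N ≥ 1` the coloured Jones polynomial is continuous at `v_N`, so that `kashaev D N` is
its value at `q = e^(2 π i / N)` in the usual sense.
(2) Let a diagram with one strand at the bottom and at the top be divided into a lower part `A` and an
upper part `C`, and let `c` be its number of crossings.  Let the strand which enters `A` from below
pass over `a` crossings before it passes under, and `x = 1` if it does pass under a crossing of `A`,
`x = 0` otherwise.  Let the strand which enters `C` from above, followed downwards, pass under `b`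
crossings before it passes over, and `y = 1` if it does pass over a crossing of `C`, `y = 0` otherwise.
Then, as `N → ∞` through odd integers, `limsup (2 π / N) log |⟨D⟩_N| ≤ (c - a - b - x - y) v_8 + (x + y) 2 v_3`.
In particular the bound is `(c - 4) v_8 + 4 v_3` for `a = b = x = y = 1` (alternating diagrams).
(3) More precisely, the upper limit is at most the sum of `2 v_3 (x + y)` and of the numbers
`rate m = min (m v_8) (10 v_3)` over the other twist regions, the crossings where the strand passes
over in `A`, respectively under in `C`, not counted. -/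
theorem result :
    (∀ (D : Diagram) (N : ℕ), 1 ≤ N → ContinuousAt (jones N D) (root N)) ∧
    (∀ A C : Diagram, IsTangle (A ++ C) 1 1 → ∀ a x b y : ℕ, overs 0 A = (a, x) →
      unders 0 C.reverse = (b, y) → ∀ ε : ℝ, 0 < ε → ∀ᶠ N : ℕ in atTop, Odd N → 
        2 * Real.pi * (Real.log ‖kashaev (A ++ C) N‖ / N) ≤
          ((crossings (A ++ C) : ℝ) - a - b - x - y) * v8 + (x + y) * (2 * v3) + ε) ∧
    (∀ A C : Diagram, IsTangle (A ++ C) 1 1 → ∀ ε : ℝ, 0 < ε → ∀ᶠ N : ℕ in atTop, Odd N → 
      2 * Real.pi * (Real.log ‖kashaev (A ++ C) N‖ / N) ≤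
        low (some 0) A + high (some 0) C.reverse + ε) := by
  refine ⟨?_, ?_, ?_⟩
  · intro D N hN
    rw [jones_eq]
    exact Pool.Agent.W613.QAT.cont (D.map tr) N hN
  · intro A C hV a x b y h1 h2 ε hε
    rw [tangle_eq, List.map_append] at hV
    have h := Pool.Agent.R807.Cut.lim_cr (A.map tr) (C.map tr) hV ε hε
    rw [overs_eq] at h1
    rw [unders_eq, List.map_reverse] at h2
    rw [h1, h2, ← List.map_append, ← crossings_eq, ← half_eq] at h
    filter_upwards [h] with N hN _
    rw [kashaev_eq]
    refine le_trans (le_of_eq ?_) (hN.trans (le_of_eq ?_))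
    · ring
    · show _ = _ * (8 * GapVol.lob (Real.pi / 4)) + _ + _
      unfold Pool.Agent.R807.Cut.v8
      ring
  · intro A C hV ε hε
    rw [tangle_eq, List.map_append] at hV
    have h := Pool.Agent.R807.Cut.lim_cut (A.map tr) (C.map tr) hV ε hε
    filter_upwards [h] with N hN _
    rw [kashaev_eq, low_eq, high_eq, List.map_reverse, List.map_append]
    refine le_trans (le_of_eq ?_) hN
    ring

end Pool.Agent.Results.MP_b30479_gt.CrossingBoundOdd
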