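import Pool.Agent.R807.Pow3
import Pool.Agent.R807.Ratio2
import Pool.Agent.W613.QAT.Cont
import Pool.Agent.W193.QAT.R1
import Pool.Agent.W591.QAT.Reid
import Pool.Agent.W683.QAT.Slide
import Pool.Agent.H550R3.Jones.SanSkein699

/-!
# Two-sided bounds for the Kashaev invariants of the two-bridge links `C(a, b, …, b, a)`

Let `C(a, b^{2n}, a)` be the two-bridge link `C(a, b, …, b, a)` with `2 n` twist regions of `b`
crossings in the middle.  Examples: `C(2, 2) = 4_1`, `C(2, 1, 1, 2) = 6_3`, `C(4, 4) = 8_3`,
`C(3, 1, 1, 3) = 8_9`, `C(2, 2, 2, 2) = 8_12`, `C(4, 1, 1, 4) = 10_17`.  For `a ≥ b ≥ 1` the growth of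
its Kashaev invariants lies between `(n + 1) G(a) - n G(a - b)` and `G(a) + n V(b)`, where `G(a)` is
the volume of the complement of `C(a, a)` and `V(b)` the volume of the complement of the closure of
the 3-braid `s_1^b s_2^{-b}` together with the braid axis (`V(3)` is replaced by `V(1) + V(2)`).

For a tangle `X` let `X*` be its image under the point reflection `x ↦ -x` of space.

Everything is defined from the R-matrix of `U_q(sl_2)`, with `v = q^{1/2}` and
`{k} = v^k - v^{-k}`.  First the `N`-coloured invariant `jones` of diagrams of unoriented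
(1,1)-tangles is defined, read off at the highest weight vector.  Under the first Reidemeister move it
changes by `(-1)^{N-1} v^{∓(N^2-1)}`, and if a strand slides over or under a cup or a cap by
`v^{∓(N^2-1)}`.  For a knot this is corrected by the factor `(-1)^{(N-1) c} v^{(N^2-1) s}`, `c` the
number of crossings and `s` the sum of the signs `σ` of those crossings at which the two strands are
directed oppositely (a curl changes `c` by `1` and `s` by `±1`; if a strand passes a cup or a cap then
two crossings appear, and the strands are directed oppositely at exactly one of them; the other moves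
change neither `s` nor the parity of `c`): this gives the coloured Jones polynomial of the knot,
without any indeterminacy, with value `1` for the unknot.  The Kashaev invariant is its value at
`v = exp (π i / N)`, that is `q = exp (2 π i / N)`.
-/

set_option autoImplicit false

namespace Pool.Agent.Results.MP_b30479_gt.PalindromicTwoBridgeOdd

open Finset Filter Topology

/-! ### The coloured Jones polynomial -/

/-- `{n} = v^n - v^{-n}` -/
noncomputable def br (v : ℂ) (n : ℤ) : ℂ := v ^ n - v ^ (-n)

/-- `{n}! = {1} {2} ⋯ {n}` -/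
noncomputable def brf (v : ℂ) (n : ℕ) : ℂ := ∏ j ∈ range n, br v ((j : ℤ) + 1)

/-- The positive crossing: the R-matrix of `U_q(sl_2)` on `V_N ⊗ V_N`, `V_N` with basis
`e_0, …, e_{N-1}`, times the framing factor `v^{-(N^2-1)/2}`; `crossP N v p q` is the coefficient
of `e_{p.1} ⊗ e_{p.2}` in the image of `e_{q.1} ⊗ e_{q.2}`:
`e_i ⊗ e_j ↦ ∑_n v^{-(N-1)(1+i+j) + 2(i-n)(j+n) + n(n-1)/2}
({j+n}! / ({j}! {n}!)) ∏_{t<n} {N-i+t} e_{j+n} ⊗ e_{i-n}`. -/
noncomputable def crossP (N : ℕ) (v : ℂ) : Matrix (Fin N × Fin N) (Fin N × Fin N) ℂ :=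
  fun p q => if (p.1 : ℕ) + p.2 = q.1 + q.2 ∧ (q.2 : ℕ) ≤ p.1 then
    v ^ (-((N : ℤ) - 1) * (1 + (q.1 : ℕ) + (q.2 : ℕ)) + 2 * (p.1 : ℕ) * (p.2 : ℕ)) *
      v ^ (((p.1 : ℕ) - q.2) * ((p.1 : ℕ) - q.2 - 1) / 2) *
      (brf v p.1 / (brf v q.2 * brf v ((p.1 : ℕ) - q.2))) *
      ∏ t ∈ range ((p.1 : ℕ) - q.2), br v ((N : ℤ) - (q.1 : ℕ) + t)
    else 0

/-- The negative crossing, inverse of `crossP N v`:
`e_i ⊗ e_j ↦ ∑_n (-1)^n v^{(N-1)(1+i+j) - 2ij - n(n-1)/2}
({i+n}! / ({i}! {n}!)) ∏_{t<n} {N-j+t} e_{j-n} ⊗ e_{i+n}`. -/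
noncomputable def crossN (N : ℕ) (v : ℂ) : Matrix (Fin N × Fin N) (Fin N × Fin N) ℂ :=
  fun p q => if (p.1 : ℕ) + p.2 = q.1 + q.2 ∧ (q.1 : ℕ) ≤ p.2 then
    (-1) ^ ((p.2 : ℕ) - q.1) *
      v ^ (((N : ℤ) - 1) * (1 + (q.1 : ℕ) + (q.2 : ℕ)) - 2 * (q.1 : ℕ) * (q.2 : ℕ)) /
      v ^ (((p.2 : ℕ) - q.1) * ((p.2 : ℕ) - q.1 - 1) / 2) *
      (brf v p.2 / (brf v q.1 * brf v ((p.2 : ℕ) - q.1))) *
      ∏ t ∈ range ((p.2 : ℕ) - q.1), br v ((N : ℤ) - (q.2 : ℕ) + t)
    else 0

/-- The coefficients of the invariant vector `∑_k kap k e_k ⊗ e_{N-1-k}` of `V_N ⊗ V_N`: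
`kap k = (-1)^k v^{k(N-2-k)} {k}! {N-1-k}! / {N-1}!`. -/
noncomputable def kap (N : ℕ) (v : ℂ) (k : ℕ) : ℂ :=
  (-1) ^ k * v ^ ((k : ℤ) * ((N : ℤ) - 2 - k)) * (brf v k * brf v (N - 1 - k) / brf v (N - 1))

/-- The cup: the invariant vector of `V_N ⊗ V_N`. -/
noncomputable def cup (N : ℕ) (v : ℂ) (p : Fin N × Fin N) : ℂ :=
  if (p.1 : ℕ) + p.2 = N - 1 then kap N v p.1 else 0

/-- The cap: the invariant linear form on `V_N ⊗ V_N`. -/
noncomputable def cap (N : ℕ) (v : ℂ) (p : Fin N × Fin N) : ℂ :=
  if (p.1 : ℕ) + p.2 = N - 1 then (kap N v p.2)⁻¹ else 0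

/-! ### Tangle diagrams -/

/-- The pieces of a diagram.  Strands are counted from `0`, from left to right.  `cup i` creates the
strands `i` and `i + 1`, `cap i` closes the strands `i` and `i + 1`, `twist i σ m` is a twist region:
`m` crossings of the strands `i` and `i + 1`, all positive (`σ = true`) or all negative. -/
inductive Piece
  | cup (i : ℕ)
  | cap (i : ℕ)
  | twist (i : ℕ) (σ : Bool) (m : ℕ)

/-- The number of strands above a piece that has `n` strands below it. -/
def Piece.strands : Piece → ℕ → Option ℕ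
  | .cup i, n => if i ≤ n then some (n + 2) else none
  | .cap i, n => if i + 2 ≤ n then some (n - 2) else none
  | .twist i _ _, n => if i + 2 ≤ n then some n else none

/-- A diagram: the list of its pieces from bottom to top. -/
abbrev Diagram := List Piece

/-- `D` is the diagram of a tangle with `n` strands at the bottom and `k` strands at the top.  (The
closure of a (1,1)-tangle is a link, and every link arises in this way.) -/
def IsTangle (D : Diagram) (n k : ℕ) : Prop :=
  D.foldl (fun n P => n.bind P.strands) (some n) = some k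

/-- The image of a piece with `n` strands below it under the point reflection `x ↦ -x` of space
(`k` strands above it become `k` strands below its image). -/
def Piece.star : Piece → ℕ → Piece
  | .cup i, n => .cap (n - i)
  | .cap i, n => .cup (n - 2 - i)
  | .twist i σ m, n => .twist (n - 2 - i) (!σ) m

/-- `star D n` is the image `D*` of the tangle `D`, with `n` strands at the bottom, under the point
reflection `x ↦ -x` of space: the diagram is turned upside down and from left to right, and all
crossings are changed. -/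
def star : Diagram → ℕ → Diagram
  | [], _ => []
  | P :: D, n => star D ((P.strands n).getD 0) ++ [P.star n]

/-- The operator of a piece.  A vector of `V_N ⊗ ⋯ ⊗ V_N` is given by its coefficients with respect
to the basis vectors `e_{s_0} ⊗ ⋯ ⊗ e_{s_{n-1}}`, indexed by the lists `s = [s_0, …, s_{n-1}]`. -/
noncomputable def Piece.act (N : ℕ) (v : ℂ) : Piece → (List (Fin N) → ℂ) → List (Fin N) → ℂ
  | .cup i, f => fun s => match s.drop i with
      | a :: b :: r => PalindromicTwoBridgeOdd.cup N v (a, b) * f (s.take i ++ r)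
      | _ => 0
  | .cap i, f => fun s =>
      ∑ p : Fin N × Fin N, PalindromicTwoBridgeOdd.cap N v p * f (s.take i ++ p.1 :: p.2 :: s.drop i)
  | .twist i σ m, f => fun s => match s.drop i with
      | a :: b :: r => ∑ p : Fin N × Fin N,
          ((if σ then crossP N v else crossN N v) ^ m) (a, b) p * f (s.take i ++ p.1 :: p.2 :: r)
      | _ => 0

/-- The operator of a diagram. -/
noncomputable def run (N : ℕ) (v : ℂ) (D : Diagram) (f : List (Fin N) → ℂ) : List (Fin N) → ℂ :=
  D.foldl (fun g P => P.act N v g) f

/-- The `N`-coloured Jones polynomial of the closure of a (1,1)-tangle (unknot `= 1`; all components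
coloured `N`) at `q = v^2`, up to sign and powers of `v`: the entry of the operator of the tangle at
the highest weight vector `e_0`. -/
noncomputable def jones (N : ℕ) (D : Diagram) (v : ℂ) : ℂ :=
  if h : 0 < N then run N v D (fun s => if s = [⟨0, h⟩] then 1 else 0) [⟨0, h⟩] else 0

/-- `v_N = exp (π i / N)`, so that `q = v_N^2 = exp (2 π i / N)`. -/
noncomputable def root (N : ℕ) : ℂ := Complex.exp (Real.pi * Complex.I / N)

/-! ### Orientations -/

/-- `P.Flow a b`: the strands below the piece `P` may have the directions `a` and the strands above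
it the directions `b` (`true`: upwards). -/
def Piece.Flow : Piece → List Bool → List Bool → Prop
  | .cup i, a, b => ∃ (l r : List Bool) (x : Bool), l.length = i ∧ a = l ++ r ∧
      b = l ++ x :: (!x) :: r
  | .cap i, a, b => ∃ (l r : List Bool) (x : Bool), l.length = i ∧ a = l ++ x :: (!x) :: r ∧
      b = l ++ r
  | .twist i _ m, a, b => ∃ (l r : List Bool) (x y : Bool), l.length = i ∧ a = l ++ x :: y :: r ∧
      b = if Even m then l ++ x :: y :: r else l ++ y :: x :: r

/-- The number of crossings of a piece. -/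
def Piece.crossings : Piece → ℕ
  | .twist _ _ m => m
  | _ => 0

/-- The sum of the signs `σ` of the crossings of the piece `P` if the two strands have opposite
directions, and `0` if they have the same direction. -/
def Piece.anti : Piece → List Bool → ℤ
  | .twist i σ m, a => match a.drop i with
      | x :: y :: _ => if x = y then 0 else if σ then m else -m
      | _ => 0
  | _, _ => 0

/-- An orientation of the (1,1)-tangle `D`: `o k` are the directions of the strands below the piece
number `k` (`k = 0, 1, …`; above the last piece if `k` is the number of pieces).  The open strand is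
directed upwards. -/
def IsOrientation (D : Diagram) (o : ℕ → List Bool) : Prop :=
  o 0 = [true] ∧ o D.length = [true] ∧
    ∀ (k : ℕ) (h : k < D.length), (D[k]).Flow (o k) (o (k + 1))

/-- The sum of the signs `σ` of the crossings at which the strands have opposite directions. -/
def anti (D : Diagram) (o : ℕ → List Bool) : ℤ := ∑ k : Fin D.length, (D[k]).anti (o k)

/-- The number of crossings of a diagram. -/
def crossings (D : Diagram) : ℕ := (D.map Piece.crossings).sum

/-- The closure of the (1,1)-tangle `D` is a knot: there is at most one orientation of `D` (which is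
directed upwards at the ends; closed components could be oriented in two ways). -/
def OneComponent (D : Diagram) : Prop :=
  ∀ o o' : ℕ → List Bool, IsOrientation D o → IsOrientation D o' → ∀ k ≤ D.length, o k = o' k

/-- The `N`-coloured Jones polynomial of the knot with the oriented diagram `D`, `o` (unknot `= 1`)
at `q = v^2`. -/
noncomputable def knotJones (N : ℕ) (D : Diagram) (o : ℕ → List Bool) (v : ℂ) : ℂ :=
  (-1) ^ ((N - 1) * crossings D) * v ^ (((N : ℤ) ^ 2 - 1) * anti D o) * jones N D v

/-- The Kashaev invariant of the knot with the oriented diagram `D`, `o`. -/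
noncomputable def kashaev (D : Diagram) (o : ℕ → List Bool) (N : ℕ) : ℂ :=
  knotJones N D o (root N)

/-- `W` is a 3-braid: twist regions of the strands 1, 2 and of the strands 2, 3. -/
def IsBraid (W : Diagram) : Prop :=
  ∀ P ∈ W, ∃ (σ : Bool) (m : ℕ), P = .twist 0 σ m ∨ P = .twist 1 σ m

/-- The alternating 3-braid with the twist regions `a_1, a_2, …`: positive crossings of the strands
1, 2 and negative crossings of the strands 2, 3 in turn. -/
def syllables : Bool → List ℕ → Diagram
  | _, [] => []
  | true, a :: l => .twist 0 true a :: syllables false l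
  | false, a :: l => .twist 1 false a :: syllables true l

/-- The two-bridge link `C(a_1, …, a_r)`, cut open: one strand and a cup to its right, `a_1` crossings
of the strands 1, 2, then `a_2` opposite crossings of the strands 2, 3, and so on; finally a cap,
which closes the strands 1, 2 if `r` is even and the strands 2, 3 if `r` is odd. -/
def twoBridge (a : List ℕ) : Diagram :=
  .cup 1 :: syllables true a ++ [if Even a.length then .cap 0 else .cap 1]

/-- Lobachevsky's function `Λ(x) = -∫_0^x log |2 sin t| dt`. -/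
noncomputable def Lob (x : ℝ) : ℝ := -∫ t in (0 : ℝ)..x, Real.log |2 * Real.sin t|

/-! ### The volumes of the syllables

The complement of `L_A` is the bundle over the circle whose fibre is the sphere with four punctures
and whose monodromy acts as `L^A R^A`.  It has a layered ideal triangulation with `2 A` layers of two
ideal tetrahedra with the same dihedral angles (layer number `i` modulo `2 A`; the layers whose number
is divisible by `A` are the hinge layers). -/

/-- First dihedral angle of the tetrahedra of layer `i` (hinge layers: `A` divides `i`). -/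
noncomputable def angX (A : ℕ) (w : ℤ → ℝ) (i : ℤ) : ℝ :=
  if (A : ℤ) ∣ i then (w (i - 1) + w i - w (i + 1)) / 2 else (w (i - 1) + w (i + 1)) / 2

/-- Second dihedral angle of the tetrahedra of layer `i`. -/
noncomputable def angY (A : ℕ) (w : ℤ → ℝ) (i : ℤ) : ℝ :=
  if (A : ℤ) ∣ i then (-w (i - 1) + w i + w (i + 1)) / 2 else (2 * w i - w (i - 1) - w (i + 1)) / 2

/-- Third dihedral angle of the tetrahedra of layer `i`. -/
noncomputable def angZ (w : ℤ → ℝ) (i : ℤ) : ℝ := Real.pi - w i

/-- Angle structures on the layered triangulation of the complement of `L_A`: functions on the layers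
(with period `2 A`) with positive dihedral angles. -/
def IsAngle (A : ℕ) (w : ℤ → ℝ) : Prop :=
  (∀ i, w (i + 2 * A) = w i) ∧ ∀ i, 0 < angX A w i ∧ 0 < angY A w i ∧ 0 < angZ w i

/-- The volume of an angle structure: two ideal tetrahedra in each of the `2 A` layers, each of
volume `Λ(x) + Λ(y) + Λ(z)`. -/
noncomputable def vol (A : ℕ) (w : ℤ → ℝ) : ℝ :=
  ∑ i ∈ range (2 * A), 2 * (Lob (angX A w i) + Lob (angY A w i) + Lob (angZ w i))

/-- `V(a)`: the volume `4 v_3 = 8 Λ(π/6)` of the complement of `L_1` for `a = 1`, the volume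
`2 v_8 = 16 Λ(π/4)` of the complement of `L_2` for `a = 2`, their sum for `a = 3`, and for `a ≥ 4` the
greatest volume of an angle structure on the complement of `L_a`. -/
noncomputable def V (a : ℕ) : ℝ :=
  if a = 1 then 8 * Lob (Real.pi / 6)
  else if a = 2 then 16 * Lob (Real.pi / 4)
  else if a = 3 then 8 * Lob (Real.pi / 6) + 16 * Lob (Real.pi / 4)
  else sSup {W : ℝ | ∃ w : ℤ → ℝ, IsAngle a w ∧ vol a w = W}

/-! ### The volumes of the links `C(A, A)`

The complement of `C(A, A)` has a canonical ideal triangulation (Sakuma and Weeks; Gueritaud and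
Futer) with `2 A - 3` layers of two ideal tetrahedra.  Its angle structures are parametrised by
`w_0, …, w_{2A-2}` with `w_0 = w_{2A-2} = π`; layer `A - 1` is the hinge. -/

/-- first dihedral angle of the tetrahedra of layer `i` -/
noncomputable def tbX (A : ℕ) (w : ℕ → ℝ) (i : ℕ) : ℝ :=
  if i + 1 = A then (w (i - 1) + w i - w (i + 1)) / 2 else (w (i - 1) + w (i + 1)) / 2

/-- second dihedral angle of the tetrahedra of layer `i` -/
noncomputable def tbY (A : ℕ) (w : ℕ → ℝ) (i : ℕ) : ℝ :=
  if i + 1 = A then (-w (i - 1) + w i + w (i + 1)) / 2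
  else (2 * w i - w (i - 1) - w (i + 1)) / 2

/-- third dihedral angle of the tetrahedra of layer `i` -/
noncomputable def tbZ (w : ℕ → ℝ) (i : ℕ) : ℝ := Real.pi - w i

/-- the angle structures on the complement of `C(A, A)` -/
def IsTbAngle (A : ℕ) (w : ℕ → ℝ) : Prop :=
  w 0 = Real.pi ∧ w (A + A - 2) = Real.pi ∧
    ∀ i, 1 ≤ i → i ≤ A + A - 3 → 0 < tbX A w i ∧ 0 < tbY A w i ∧ 0 < tbZ w i

/-- the volume of an angle structure: two ideal tetrahedra in every layer -/
noncomputable def tbVol (A : ℕ) (w : ℕ → ℝ) : ℝ :=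
  ∑ i ∈ Icc 1 (A + A - 3), 2 * (Lob (tbX A w i) + Lob (tbY A w i) + Lob (tbZ w i))

/-- `G(a)`: `0` for `a = 0` (unknot) and `a = 1` (Hopf link), the volume `2 v_3 = 4 Λ(π/6)` of the complement of
`C(2, 2)` (figure eight knot) for `a = 2`, the volume `8 Λ(π/6)` of the complement of `C(3, 3)` for
`a = 3`, and for `a ≥ 4` the greatest volume of an angle structure on the complement of `C(a, a)`. -/
noncomputable def G (a : ℕ) : ℝ :=
  if a ≤ 1 then 0
  else if a = 2 then 4 * Lob (Real.pi / 6)
  else if a = 3 then 8 * Lob (Real.pi / 6)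
  else sSup {W : ℝ | ∃ w : ℕ → ℝ, IsTbAngle a w ∧ tbVol a w = W}

/-- The value of the invariant of the unoriented diagram `D` (one strand at the bottom and at the top)
at `v = exp (π i / N)`: the Kashaev invariant up to a factor of absolute value `1`. -/
noncomputable def value (D : Diagram) (N : ℕ) : ℂ := jones N D (root N)

/-! ### Translation to the library -/

/-- the pieces of the library -/
def tr : Piece → Pool.Agent.W709.QAT.Piece
  | .cup i => .cup i
  | .cap i => .cap i
  | .twist i σ m => .twist i σ m

lemma act_eq (N : ℕ) (v : ℂ) (P : Piece) (f : List (Fin N) → ℂ) :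
    P.act N v f = (tr P).act N v f := by
  cases P with
  | cup i =>
    funext s
    simp only [Piece.act, tr, Pool.Agent.W709.QAT.Piece.act]
    rcases s.drop i with _ | ⟨a, _ | ⟨b, r⟩⟩ <;> rfl
  | cap i => rfl
  | twist i σ m =>
    funext s
    simp only [Piece.act, tr, Pool.Agent.W709.QAT.Piece.act]
    rcases s.drop i with _ | ⟨a, _ | ⟨b, r⟩⟩ <;> rfl

lemma run_eq (N : ℕ) (v : ℂ) (D : Diagram) (f : List (Fin N) → ℂ) :
    run N v D f = Pool.Agent.W709.QAT.run N v (D.map tr) f := by
  unfold run Pool.Agent.W709.QAT.run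
  induction D generalizing f with
  | nil => rfl
  | cons P D ih =>
    rw [List.map_cons, List.foldl_cons, List.foldl_cons, act_eq, ih]

lemma jones_eq (N : ℕ) (D : Diagram) :
    jones N D = Pool.Agent.W709.QAT.jones N (D.map tr) := by
  funext v
  unfold jones Pool.Agent.W709.QAT.jones
  split_ifs with h
  · rw [run_eq]
  · rfl

lemma strands_eq (P : Piece) (n : ℕ) : (tr P).strands n = P.strands n := by
  cases P <;> rfl

lemma tangle_eq (D : Diagram) (n k : ℕ) :
    IsTangle D n k ↔ Pool.Agent.R807.Fits (D.map tr) n k := by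
  unfold IsTangle Pool.Agent.R807.Fits
  have h : ∀ o : Option ℕ, D.foldl (fun n P => n.bind P.strands) o =
      (D.map tr).foldl (fun n P => n.bind P.strands) o := by
    induction D with
    | nil => intro o; rfl
    | cons P D ih =>
      intro o
      rw [List.map_cons, List.foldl_cons, List.foldl_cons, ← ih]
      congr 1
      cases o with
      | none => rfl
      | some m => exact (strands_eq P m).symm
  rw [h]

lemma star_eq (D : Diagram) (n : ℕ) : (star D n).map tr = Pool.Agent.R807.adj (D.map tr) n := by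
  induction D generalizing n with
  | nil => rfl
  | cons P D ih =>
    simp only [star, List.map_append, List.map_cons, List.map_nil, Pool.Agent.R807.adj]
    rw [ih, strands_eq]
    congr 2
    cases P <;> rfl

/-! ### Checks of the definitions (not part of the result)

For `N = 2` the skein relation; the moves that generate the isotopies of diagrams of unoriented
links, up to a factor `c` with `|c| = 1` for `|v| = 1`. -/

/-- For `N = 2` the crossings satisfy the skein relation of the Jones polynomial. -/
theorem skein (v : ℂ) (hv : v ≠ 0) (h1 : br v 1 ≠ 0) :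
    v ^ 2 • crossP 2 v - (v ^ 2)⁻¹ • crossN 2 v =
      (v - v⁻¹) • (1 : Matrix (Fin 2 × Fin 2) (Fin 2 × Fin 2) ℂ) :=
  Pool.Agent.H550R3.Jones.taskSanSkein v hv h1

/-- Zigzag. -/
theorem zigzag (N : ℕ) (v : ℂ) (hv : v ≠ 0) (h : ∀ k : ℕ, 0 < k → k < N → br v k ≠ 0)
    (f : List (Fin N) → ℂ) (i : ℕ) (s : List (Fin N)) (hi : i < s.length) :
    run N v [.cup (i + 1), .cap i] f s = f s ∧ run N v [.cup i, .cap (i + 1)] f s = f s := by
  rw [run_eq, run_eq]
  exact Pool.Agent.W591.QAT.zz N v hv h f i s hi

/-- The first Reidemeister move (four cases). -/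
theorem reidemeister_one (N : ℕ) (v : ℂ) (hv : v ≠ 0) (h : ∀ k : ℕ, 0 < k → k < N → br v k ≠ 0)
    (hN : 0 < N) (f : List (Fin N) → ℂ) (i : ℕ) (s : List (Fin N)) :
    (i + 2 ≤ s.length →
      run N v [.cup i, .twist i true 1] f s =
        (-1) ^ (N - 1) * v ^ (-((N : ℤ) ^ 2 - 1)) * run N v [.cup i] f s ∧
      run N v [.cup i, .twist i false 1] f s =
        (-1) ^ (N - 1) * v ^ ((N : ℤ) ^ 2 - 1) * run N v [.cup i] f s) ∧
    (i ≤ s.length →
      run N v [.twist i true 1, .cap i] f s =
        (-1) ^ (N - 1) * v ^ (-((N : ℤ) ^ 2 - 1)) * run N v [.cap i] f s ∧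
      run N v [.twist i false 1, .cap i] f s =
        (-1) ^ (N - 1) * v ^ ((N : ℤ) ^ 2 - 1) * run N v [.cap i] f s) := by
  simp only [run_eq]
  exact ⟨fun hi => ⟨Pool.Agent.W193.QAT.r1 N v hv h hN f i s hi,
      Pool.Agent.W193.QAT.r1n N v hv h hN f i s hi⟩,
    fun hi => ⟨Pool.Agent.W193.QAT.r1c N v hv h hN f i s hi,
      Pool.Agent.W193.QAT.r1cn N v hv h hN f i s hi⟩⟩

/-- The second and the third Reidemeister move. -/
theorem reidemeister_two_three (N : ℕ) (v : ℂ) (hv : v ≠ 0)
    (h : ∀ k : ℕ, 0 < k → k < N → br v k ≠ 0) (f : List (Fin N) → ℂ) (i : ℕ) (s : List (Fin N)) :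
    (i + 2 ≤ s.length →
      run N v [.twist i true 1, .twist i false 1] f s = f s ∧
      run N v [.twist i false 1, .twist i true 1] f s = f s) ∧
    (i + 3 ≤ s.length →
      run N v [.twist i true 1, .twist (i + 1) true 1, .twist i true 1] f s =
      run N v [.twist (i + 1) true 1, .twist i true 1, .twist (i + 1) true 1] f s) := by
  rw [run_eq, run_eq, run_eq, run_eq]
  exact Pool.Agent.W591.QAT.reid N v hv h f i s

/-- A strand slides over a cup and over a cap. -/
theorem slide (N : ℕ) (v : ℂ) (hv : v ≠ 0) (h : ∀ k : ℕ, 0 < k → k < N → br v k ≠ 0)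
    (f : List (Fin N) → ℂ) (i : ℕ) (s : List (Fin N)) (σ : Bool) :
    (i + 3 ≤ s.length →
      run N v [.cup (i + 1), .twist i σ 1, .twist (i + 1) σ 1] f s =
        v ^ (if σ then -((N : ℤ) ^ 2 - 1) else (N : ℤ) ^ 2 - 1) * run N v [.cup i] f s ∧
      run N v [.cup i, .twist (i + 1) σ 1, .twist i σ 1] f s =
        v ^ (if σ then -((N : ℤ) ^ 2 - 1) else (N : ℤ) ^ 2 - 1) * run N v [.cup (i + 1)] f s) ∧
    (i + 1 ≤ s.length →
      run N v [.twist i σ 1, .twist (i + 1) σ 1, .cap i] f s =
        v ^ (if σ then -((N : ℤ) ^ 2 - 1) else (N : ℤ) ^ 2 - 1) * run N v [.cap (i + 1)] f s ∧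
      run N v [.twist (i + 1) σ 1, .twist i σ 1, .cap (i + 1)] f s =
        v ^ (if σ then -((N : ℤ) ^ 2 - 1) else (N : ℤ) ^ 2 - 1) * run N v [.cap i] f s) := by
  have e : Pool.Agent.W683.QAT.ct N v σ =
      v ^ (if σ then -((N : ℤ) ^ 2 - 1) else (N : ℤ) ^ 2 - 1) := by
    unfold Pool.Agent.W683.QAT.ct Pool.Agent.W683.QAT.cst
    cases σ
    · simp only [Bool.false_eq_true, if_false]
      rw [zpow_neg, inv_inv]
    · simp only [if_true]
  rw [← e]
  simp only [run_eq]
  exact Pool.Agent.W683.QAT.slide_all N v hv h f i s σ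

/-- A twist region is a stack of crossings. -/
theorem twist_succ (N : ℕ) (v : ℂ) (f : List (Fin N) → ℂ) (i m : ℕ) (σ : Bool)
    (s : List (Fin N)) (hi : i + 2 ≤ s.length) :
    run N v [.twist i σ m, .twist i σ 1] f s = run N v [.twist i σ (m + 1)] f s := by
  simp only [run_eq]
  exact Pool.Agent.W613.QAT.pow N v f i m σ s hi

/-! ### Orientations and the point reflection -/

lemma flow_strands {P : Piece} {a b : List Bool} (h : P.Flow a b) :
    P.strands a.length = some b.length := by
  cases P with
  | cup i =>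
    obtain ⟨l, r, x, h1, rfl, rfl⟩ := h
    subst h1
    simp only [Piece.strands, List.length_append, List.length_cons]
    rw [if_pos (by omega)]
    congr 1
  | cap i =>
    obtain ⟨l, r, x, h1, rfl, rfl⟩ := h
    subst h1
    simp only [Piece.strands, List.length_append, List.length_cons]
    rw [if_pos (by omega)]
    congr 1
  | twist i σ m =>
    obtain ⟨l, r, x, y, h1, rfl, rfl⟩ := h
    subst h1
    simp only [Piece.strands, List.length_append, List.length_cons]
    rw [if_pos (by omega)]
    congr 1
    split_ifs <;> simp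

lemma flow_star {P : Piece} {a b : List Bool} (h : P.Flow a b) :
    (P.star a.length).Flow b.reverse a.reverse := by
  cases P with
  | cup i =>
    obtain ⟨l, r, x, h1, rfl, rfl⟩ := h
    subst h1
    refine ⟨r.reverse, l.reverse, !x, ?_, ?_, ?_⟩
    · simp
    · simp
    · simp
  | cap i =>
    obtain ⟨l, r, x, h1, rfl, rfl⟩ := h
    subst h1
    refine ⟨r.reverse, l.reverse, !x, ?_, ?_, ?_⟩
    · simp only [List.length_reverse, List.length_append, List.length_cons]
      omega
    · simp
    · simp
  | twist i σ m =>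
    obtain ⟨l, r, x, y, h1, rfl, rfl⟩ := h
    subst h1
    by_cases hm : Even m
    · refine ⟨r.reverse, l.reverse, y, x, ?_, ?_, ?_⟩
      · simp only [List.length_reverse, List.length_append, List.length_cons]
        omega
      · simp [hm]
      · simp [hm]
    · refine ⟨r.reverse, l.reverse, x, y, ?_, ?_, ?_⟩
      · simp only [List.length_reverse, List.length_append, List.length_cons]
        omega
      · simp [hm]
      · simp [hm]

lemma anti_twist (l r : List Bool) (x y : Bool) (σ : Bool) (m : ℕ) :
    (Piece.twist l.length σ m).anti (l ++ x :: y :: r) =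
      if x = y then 0 else if σ then (m : ℤ) else -m := by
  simp only [Piece.anti]
  have e : (l ++ x :: y :: r).drop l.length = x :: y :: r := by simp
  rw [e]

lemma anti_star {P : Piece} {a b : List Bool} (h : P.Flow a b) :
    (P.star a.length).anti b.reverse = -P.anti a := by
  cases P with
  | cup i => simp [Piece.star, Piece.anti]
  | cap i => simp [Piece.star, Piece.anti]
  | twist i σ m =>
    obtain ⟨l, r, x, y, h1, rfl, rfl⟩ := h
    subst h1
    rw [anti_twist]
    have e : (Piece.twist l.length σ m).star (l ++ x :: y :: r).length =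
        Piece.twist r.reverse.length (!σ) m := by
      simp only [Piece.star, List.length_reverse, List.length_append, List.length_cons]
      congr 1
      omega
    rw [e]
    by_cases hm : Even m
    · rw [if_pos hm]
      have e2 : (l ++ x :: y :: r).reverse = r.reverse ++ y :: x :: l.reverse := by simp
      rw [e2, anti_twist]
      cases x <;> cases y <;> cases σ <;> simp
    · rw [if_neg hm]
      have e2 : (l ++ y :: x :: r).reverse = r.reverse ++ x :: y :: l.reverse := by simp
      rw [e2, anti_twist]
      cases x <;> cases y <;> cases σ <;> simp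

lemma star_length (D : Diagram) (n : ℕ) : (star D n).length = D.length := by
  induction D generalizing n with
  | nil => rfl
  | cons P D ih => simp [star, ih]

lemma star_get (D : Diagram) (o : ℕ → List Bool)
    (h : ∀ (k : ℕ) (hk : k < D.length), (D[k]).Flow (o k) (o (k + 1))) (k : ℕ)
    (hk : k < D.length) :
    (star D (o 0).length)[D.length - 1 - k]'(by rw [star_length]; omega) =
      (D[k]).star (o k).length := by
  induction D generalizing o k with
  | nil => exact absurd hk (by simp)
  | cons P D ih =>
    have h0 := h 0 (by simp)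
    have h1 := flow_strands h0
    simp only [List.getElem_cons_zero] at h1
    have e : star (P :: D) (o 0).length = star D (o 1).length ++ [P.star (o 0).length] := by
      simp only [star]
      rw [h1]
      rfl
    simp only [e]
    cases k with
    | zero =>
      rw [List.getElem_append_right (by rw [star_length]; simp)]
      simp
    | succ k =>
      have hk' : k < D.length := by simpa using hk
      rw [List.getElem_append_left (by rw [star_length]; simp; omega)]
      have := ih (fun k => o (k + 1)) (fun k hk => by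
        have := h (k + 1) (by simpa using hk)
        simpa using this) k hk'
      simp only [List.length_cons, List.getElem_cons_succ]
      rw [← this]
      congr 1
      omega

/-- the image of an orientation -/
def flip (D : Diagram) (o : ℕ → List Bool) (k : ℕ) : List Bool := (o (D.length - k)).reverse

lemma flip_orientation {D : Diagram} (o : ℕ → List Bool) (ho : IsOrientation D o)
    (hs : star D 1 = D) : IsOrientation D (flip D o) := by
  obtain ⟨h0, h1, h2⟩ := ho
  refine ⟨?_, ?_, ?_⟩
  · simp [flip, h1]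
  · simp [flip, h0]
  · intro k hk
    have h3 := star_get D o h2 (D.length - 1 - k) (by omega)
    have e0 : (o 0).length = 1 := by rw [h0]; rfl
    have h4 := flow_star (h2 (D.length - 1 - k) (by omega))
    rw [← h3] at h4
    have e1 : D.length - 1 - k + 1 = D.length - k := by omega
    have e2 : D.length - (k + 1) = D.length - 1 - k := by omega
    have e3 : D.length - 1 - (D.length - 1 - k) = k := by omega
    have e4 : (star D (o 0).length)[D.length - 1 - (D.length - 1 - k)]'(by
        rw [star_length]; omega) = D[k] := by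
      simp only [e0, hs, e3]
    rw [e4, e1] at h4
    unfold flip
    rw [e2]
    exact h4

lemma anti_eq (D : Diagram) (o : ℕ → List Bool) : anti D o =
    ∑ k ∈ range D.length, (if h : k < D.length then (D[k]).anti (o k) else 0) := by
  unfold anti
  rw [← Fin.sum_univ_eq_sum_range
    (fun k => if h : k < D.length then (D[k]).anti (o k) else 0)]
  refine sum_congr rfl fun k _ => ?_
  rw [dif_pos k.2]
  rfl

/-- **knots which are equal to their image under the point reflection** -/
theorem anti_zero {D : Diagram} (hs : star D 1 = D) (h1 : OneComponent D) {o : ℕ → List Bool}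
    (ho : IsOrientation D o) : anti D o = 0 := by
  have h2 := flip_orientation o ho hs
  have h3 : anti D (flip D o) = anti D o := by
    rw [anti_eq, anti_eq]
    refine sum_congr rfl fun k hk => ?_
    rw [h1 _ _ h2 ho k (mem_range.1 hk).le]
  have h4 : anti D (flip D o) = -anti D o := by
    rw [anti_eq, anti_eq, ← sum_range_reflect, ← sum_neg_distrib]
    refine sum_congr rfl fun k hk => ?_
    have hk' := mem_range.1 hk
    rw [dif_pos (show D.length - 1 - k < D.length by omega), dif_pos hk']
    have h5 := anti_star (ho.2.2 k hk')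
    have h6 := star_get D o ho.2.2 k hk'
    have e0 : (o 0).length = 1 := by rw [ho.1]; rfl
    rw [← h6] at h5
    have e4 : (star D (o 0).length)[D.length - 1 - k]'(by
        rw [star_length]; omega) = D[D.length - 1 - k] := by
      simp only [e0, hs]
    rw [e4] at h5
    rw [← h5]
    unfold flip
    have e1 : D.length - (D.length - 1 - k) = k + 1 := by omega
    rw [e1]
  omega

lemma crossings_append (D E : Diagram) : crossings (D ++ E) = crossings D + crossings E := by
  simp [crossings]

lemma crossings_star (D : Diagram) (n : ℕ) : crossings (star D n) = crossings D := by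
  induction D generalizing n with
  | nil => rfl
  | cons P D ih =>
    rw [star, crossings_append, ih]
    have : crossings [P.star n] = P.crossings := by
      cases P <;> simp [crossings, Piece.star, Piece.crossings]
    rw [this]
    simp [crossings, add_comm]


/-! ### The diagrams `T* T` -/

lemma tr_inj : Function.Injective tr := by
  intro a b h
  cases a <;> cases b <;> simp_all [tr]

lemma star_pal {T : Diagram} (hT : IsTangle T 1 3) : star (T ++ star T 1) 1 = T ++ star T 1 := by
  have hF := (tangle_eq _ _ _).1 hT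
  apply List.map_injective_iff.2 tr_inj
  rw [star_eq, List.map_append, star_eq, Pool.Agent.R807.adj_append hF, Pool.Agent.R807.adj_adj hF]

lemma kashaev_pal {T : Diagram} (hT : IsTangle T 1 3) (h1 : OneComponent (T ++ star T 1))
    {o : ℕ → List Bool} (ho : IsOrientation (T ++ star T 1) o) (N : ℕ) :
    kashaev (T ++ star T 1) o N =
      Pool.Agent.W709.QAT.jones N (T.map tr ++ Pool.Agent.R807.adj (T.map tr) 1)
        (Pool.Agent.W715.VC.rt N) := by
  unfold kashaev knotJones
  rw [anti_zero (star_pal hT) h1 ho, crossings_append, crossings_star, mul_zero, zpow_zero, mul_one,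
    jones_eq, List.map_append, star_eq]
  have e : (N - 1) * (crossings T + crossings T) = 2 * ((N - 1) * crossings T) := by ring
  rw [e, pow_mul, neg_one_sq, one_pow, one_mul]
  rfl

lemma cup_tangle {W : Diagram} (hW : IsBraid W) : IsTangle (.cup 1 :: W) 1 3 := by
  rw [tangle_eq]
  refine Pool.Agent.R807.fits_cons' (m := 3) rfl (Pool.Agent.R807.fits_braid ?_)
  intro P hP
  obtain ⟨Q, hQ, rfl⟩ := List.mem_map.1 hP
  obtain ⟨σ, m, h⟩ := hW Q hQ
  rcases h with rfl | rfl
  · exact ⟨σ, m, Or.inl rfl⟩
  · exact ⟨σ, m, Or.inr rfl⟩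

lemma nonneg {T : Diagram} (hT : IsTangle T 1 3) (h1 : OneComponent (T ++ star T 1))
    {o : ℕ → List Bool} (ho : IsOrientation (T ++ star T 1) o) {N : ℕ} (hN : 1 ≤ N) :
    ∃ x : ℝ, 0 ≤ x ∧ kashaev (T ++ star T 1) o N = x := by
  rw [kashaev_pal hT h1 ho]
  exact Pool.Agent.R807.jones_nonneg (N := N) hN ((tangle_eq _ _ _).1 hT)

lemma positive {W : Diagram} (hW : IsBraid W)
    (h1 : OneComponent (.cup 1 :: W ++ star (.cup 1 :: W) 1))
    {o : ℕ → List Bool} (ho : IsOrientation (.cup 1 :: W ++ star (.cup 1 :: W) 1) o) {N : ℕ}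
    (hN : 1 ≤ N) :
    ∃ x : ℝ, 0 < x ∧ kashaev (.cup 1 :: W ++ star (.cup 1 :: W) 1) o N = x := by
  rw [kashaev_pal (cup_tangle hW) h1 ho]
  have hB : Pool.Agent.R807.IsBraid (W.map tr) := by
    intro P hP
    obtain ⟨Q, hQ, rfl⟩ := List.mem_map.1 hP
    obtain ⟨σ, m, h⟩ := hW Q hQ
    rcases h with rfl | rfl
    · exact ⟨σ, m, Or.inl rfl⟩
    · exact ⟨σ, m, Or.inr rfl⟩
  exact Pool.Agent.R807.jones_pos (N := N) hN hB

lemma syllables_append (b : Bool) (l l' : List ℕ) : syllables b (l ++ l') =
    syllables b l ++ syllables (if Even l.length then b else !b) l' := by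
  induction l generalizing b with
  | nil => simp [syllables]
  | cons a l ih =>
    cases b
    · simp only [List.cons_append, syllables, ih, List.length_cons, Nat.even_add_one]
      by_cases h : Even l.length <;> simp [h]
    · simp only [List.cons_append, syllables, ih, List.length_cons, Nat.even_add_one]
      by_cases h : Even l.length <;> simp [h]

lemma star_syllables (b : Bool) (l : List ℕ) : star (syllables b l) 3 =
    syllables (if Even l.length then b else !b) l.reverse := by
  induction l generalizing b with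
  | nil => cases b <;> simp [syllables, star]
  | cons a l ih =>
    have e : ∀ (P : Piece) (D : Diagram), P.strands 3 = some 3 →
        star (P :: D) 3 = star D 3 ++ [P.star 3] := by
      intro P D h
      simp only [star, h]
      rfl
    cases b
    · have e1 : syllables false (a :: l) = .twist 1 false a :: syllables true l := rfl
      rw [e1, e _ _ rfl, ih, List.reverse_cons, syllables_append, List.length_reverse]
      by_cases h : Even l.length <;>
        simp [h, List.length_cons, Nat.even_add_one, syllables, Piece.star]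
    · have e1 : syllables true (a :: l) = .twist 0 true a :: syllables false l := rfl
      rw [e1, e _ _ rfl, ih, List.reverse_cons, syllables_append, List.length_reverse]
      by_cases h : Even l.length <;>
        simp [h, List.length_cons, Nat.even_add_one, syllables, Piece.star]

lemma twoBridge_pal (l : List ℕ) : twoBridge (l ++ l.reverse) =
    .cup 1 :: syllables true l ++ star (.cup 1 :: syllables true l) 1 := by
  have h : Even (l ++ l.reverse).length := by
    rw [List.length_append, List.length_reverse]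
    exact ⟨_, rfl⟩
  have e : star (.cup 1 :: syllables true l) 1 = star (syllables true l) 3 ++ [.cap 0] := rfl
  unfold twoBridge
  rw [if_pos h, syllables_append, e, star_syllables]
  simp

lemma syllables_braid (b : Bool) (l : List ℕ) : IsBraid (syllables b l) := by
  induction l generalizing b with
  | nil => intro P hP; cases b <;> simp [syllables] at hP
  | cons a l ih =>
    intro P hP
    cases b
    · simp only [syllables, List.mem_cons] at hP
      rcases hP with rfl | hP
      · exact ⟨false, a, Or.inr rfl⟩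
      · exact ih _ P hP
    · simp only [syllables, List.mem_cons] at hP
      rcases hP with rfl | hP
      · exact ⟨true, a, Or.inl rfl⟩
      · exact ih _ P hP

lemma cont (N : ℕ) (D : Diagram) (o : ℕ → List Bool) (hN : 1 ≤ N) :
    ContinuousAt (knotJones N D o) (root N) := by
  have h1 : ContinuousAt (jones N D) (root N) := by
    rw [jones_eq]
    exact Pool.Agent.W613.QAT.cont (D.map tr) N hN
  exact (continuousAt_const.mul (continuousAt_zpow₀ _ _ (Or.inl (Complex.exp_ne_zero _)))).mul h1

/-! ### Bridges -/

lemma syl_eq (b : Bool) (l : List ℕ) : (syllables b l).map tr = Pool.Agent.R807.syl b l := by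
  induction l generalizing b with
  | nil => cases b <;> rfl
  | cons a l ih =>
    cases b
    · simp only [syllables, Pool.Agent.R807.syl, List.map_cons, ih]
      rfl
    · simp only [syllables, Pool.Agent.R807.syl, List.map_cons, ih]
      rfl

lemma value_eq (D : Diagram) (N : ℕ) : value D N =
    Pool.Agent.W709.QAT.jones N (D.map tr) (Pool.Agent.W715.VC.rt N) := by
  unfold value
  rw [jones_eq]
  rfl

/-- the list of the twist regions -/
def palList (a b n : ℕ) : List ℕ := a :: List.replicate (2 * n) b ++ [a]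

lemma pal_even (a b n : ℕ) : Even (palList a b n).length := by
  unfold palList
  simp only [List.cons_append, List.length_cons, List.length_append, List.length_nil,
    List.length_replicate]
  exact ⟨n + 1, by ring⟩

lemma pal_tr (a b n : ℕ) : (twoBridge (palList a b n)).map tr = Pool.Agent.R807.Pow3.pal a b n := by
  unfold twoBridge Pool.Agent.R807.Pow3.pal
  rw [List.map_append, List.map_cons, syl_eq, if_pos (pal_even a b n)]
  rfl

lemma pal_zero (a b : ℕ) : palList a b 0 = [a, a] := rfl

lemma X_value {N : ℕ} (hN : 0 < N) (a : ℕ) :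
    value (twoBridge [a, a]) N = ((Pool.Agent.R807.Pow3.X N a : ℝ) : ℂ) := by
  have h0 : (twoBridge [a, a]).map tr = Pool.Agent.R807.Pow3.pal a 0 0 := pal_tr a 0 0
  have h1 : Pool.Agent.R807.Pow3.pal a 0 0 = Pool.Agent.R807.TB.Ta a ++
      Pool.Agent.R807.adj (Pool.Agent.R807.TB.Ta a) 1 := rfl
  have h := h0.trans h1
  rw [value_eq, h, Pool.Agent.R807.jones_glue hN (Pool.Agent.R807.TB.fits_Ta a),
    Pool.Agent.R807.Hf_self hN (Pool.Agent.R807.xv_InK hN (Pool.Agent.R807.TB.fits_Ta a)),
    ← Pool.Agent.R807.Pow3.X_eq]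

lemma set_eq (a : ℕ) : {W : ℝ | ∃ w : ℤ → ℝ, IsAngle a w ∧ vol a w = W} =
    {W : ℝ | ∃ w, Pool.Agent.W719.BX.bAngleN a 1 w ∧ Pool.Agent.W719.BX.bvolN a 1 w = W} := by
  have h1 : ∀ w : ℤ → ℝ, IsAngle a w ↔ Pool.Agent.W719.BX.bAngleN a 1 w := by
    intro w
    have e : (2 : ℤ) * a * ((1 : ℕ) : ℤ) = 2 * a := by push_cast; ring
    unfold IsAngle Pool.Agent.W719.BX.bAngleN
    rw [e]
    rfl
  have h2 : ∀ w : ℤ → ℝ, vol a w = Pool.Agent.W719.BX.bvolN a 1 w := by
    intro w
    unfold vol Pool.Agent.W719.BX.bvolN
    rw [mul_one]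
    rfl
  simp only [h1, h2]

lemma tbset_eq (a : ℕ) : {W : ℝ | ∃ w : ℕ → ℝ, IsTbAngle a w ∧ tbVol a w = W} =
    {W : ℝ | ∃ w, Pool.Agent.W709.VC.IsAngle a a w ∧ Pool.Agent.W709.VC.volw a a w = W} := rfl

lemma V_spec {a : ℕ} (ha : 1 ≤ a) : Pool.Agent.R807.HolderLim.GrowthLe (V a) a ∧
    (4 ≤ a → IsGreatest {W : ℝ | ∃ w : ℤ → ℝ, IsAngle a w ∧ vol a w = W} (V a)) := by
  by_cases h1 : a = 1
  · subst h1
    have e : V 1 = 8 * Lob (Real.pi / 6) := if_pos rfl
    rw [e]
    exact ⟨Pool.Agent.R807.HolderLim.growth_one, fun h => absurd h (by norm_num)⟩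
  by_cases h2 : a = 2
  · subst h2
    have e : V 2 = 16 * Lob (Real.pi / 4) := by
      unfold V
      rw [if_neg (by norm_num), if_pos rfl]
    rw [e]
    exact ⟨Pool.Agent.R807.HolderLim.growth_two, fun h => absurd h (by norm_num)⟩
  by_cases h3 : a = 3
  · subst h3
    have e : V 3 = 8 * Lob (Real.pi / 6) + 16 * Lob (Real.pi / 4) := by
      unfold V
      rw [if_neg (by norm_num), if_neg (by norm_num), if_pos rfl]
    rw [e]
    exact ⟨Pool.Agent.R807.HolderLim.growth_three, fun h => absurd h (by norm_num)⟩
  · have e : V a = sSup {W : ℝ | ∃ w : ℤ → ℝ, IsAngle a w ∧ vol a w = W} := by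
      unfold V
      rw [if_neg h1, if_neg h2, if_neg h3]
    obtain ⟨W, g1, g2, g3⟩ := Pool.Agent.R807.HolderLim.growth_four (a := a) (by omega)
    rw [← set_eq] at g1
    rw [e, g1.csSup_eq]
    exact ⟨g3, fun _ => g1⟩

lemma G_spec (a : ℕ) : Pool.Agent.R807.TB.EndLe (G a) a ∧ Pool.Agent.R807.Pow3.EndGe (G a) a ∧
    (4 ≤ a → IsGreatest {W : ℝ | ∃ w : ℕ → ℝ, IsTbAngle a w ∧ tbVol a w = W} (G a)) := by
  by_cases h0 : a = 0
  · subst h0
    have e : G 0 = 0 := if_pos (by norm_num)
    rw [e]
    exact ⟨Pool.Agent.R807.Pow3.le_zero, Pool.Agent.R807.Pow3.ge_zero,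
      fun h => absurd h (by norm_num)⟩
  by_cases h1 : a = 1
  · subst h1
    have e : G 1 = 0 := if_pos le_rfl
    rw [e]
    exact ⟨Pool.Agent.R807.TB.end_one, Pool.Agent.R807.Pow3.ge_one,
      fun h => absurd h (by norm_num)⟩
  by_cases h2 : a = 2
  · subst h2
    have e : G 2 = 4 * Lob (Real.pi / 6) := by
      unfold G
      rw [if_neg (by norm_num), if_pos rfl]
    rw [e]
    exact ⟨Pool.Agent.R807.TB.end_two, Pool.Agent.R807.Pow3.ge_two,
      fun h => absurd h (by norm_num)⟩
  by_cases h3 : a = 3
  · subst h3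
    have e : G 3 = 8 * Lob (Real.pi / 6) := by
      unfold G
      rw [if_neg (by norm_num), if_neg (by norm_num), if_pos rfl]
    rw [e]
    exact ⟨Pool.Agent.R807.TB.end_three, Pool.Agent.R807.Pow3.ge_three,
      fun h => absurd h (by norm_num)⟩
  · have e : G a = sSup {W : ℝ | ∃ w : ℕ → ℝ, IsTbAngle a w ∧ tbVol a w = W} := by
      unfold G
      rw [if_neg (by omega), if_neg h2, if_neg h3]
    obtain ⟨W, g1, g2, g3⟩ := Pool.Agent.R807.Pow3.both_four (a := a) (by omega)
    rw [← tbset_eq] at g1
    rw [e, g1.csSup_eq]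
    exact ⟨g2, g3, fun _ => g1⟩

lemma log_two_sided {x : ℝ} {N : ℕ} (hN : 0 < N) {a b : ℝ}
    (h1 : Real.exp (N * (a / (2 * Real.pi))) ≤ x)
    (h2 : x ≤ Real.exp (N * (b / (2 * Real.pi)))) :
    a ≤ 2 * Real.pi * (Real.log x / N) ∧ 2 * Real.pi * (Real.log x / N) ≤ b := by
  have hNr : (0 : ℝ) < N := by exact_mod_cast hN
  have hpi := Real.pi_pos
  have hx : 0 < x := (Real.exp_pos _).trans_le h1
  constructor
  · have h3 := Real.log_le_log (Real.exp_pos _) h1
    rw [Real.log_exp] at h3
    rw [← mul_div_assoc, le_div_iff₀ hNr]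
    have e : N * (a / (2 * Real.pi)) = a * N / (2 * Real.pi) := by ring
    rw [e, div_le_iff₀ (by positivity)] at h3
    linarith
  · have h3 := Real.log_le_log hx h2
    rw [Real.log_exp] at h3
    rw [← mul_div_assoc, div_le_iff₀ hNr]
    have e : N * (b / (2 * Real.pi)) = b * N / (2 * Real.pi) := by ring
    rw [e, le_div_iff₀ (by positivity)] at h3
    linarith

lemma pal_rev (a b n : ℕ) : palList a b n =
    (a :: List.replicate n b) ++ (a :: List.replicate n b).reverse := by
  unfold palList
  rw [List.reverse_cons, List.reverse_replicate, two_mul, List.replicate_add]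
  simp only [List.cons_append, List.append_assoc]

lemma kashaev_value (l : List ℕ) (h1 : OneComponent (twoBridge (l ++ l.reverse)))
    {o : ℕ → List Bool} (ho : IsOrientation (twoBridge (l ++ l.reverse)) o) (N : ℕ) :
    kashaev (twoBridge (l ++ l.reverse)) o N = value (twoBridge (l ++ l.reverse)) N := by
  rw [twoBridge_pal] at h1 ho ⊢
  rw [kashaev_pal (cup_tangle (syllables_braid _ _)) h1 ho, value_eq, List.map_append, star_eq]

/-! ### The result -/

/-- **Two-sided bounds for the growth of the Kashaev invariants of `C(a, b, …, b, a)`, `N` odd.**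
(1) For every `N ≥ 1` the coloured Jones polynomials are continuous at `v_N`, so that `value D N` and
`kashaev D o N` are their values at `q = e^(2 π i / N)` in the usual sense.
(2) For `a ≥ 4` the numbers `V(a)` and `G(a)` are the maxima of the volumes of the angle structures
(by Casson and Rivin the hyperbolic volumes of the complements of `L_a` and of `C(a, a)`).
(3) Let `N ≥ 1`, `a ≥ b ≥ 0`.  The invariants `x_n` of `C(a, b^{2n}, a)`, `n ≥ 0`, are real and
positive, `x_m x_n ≤ x_0 x_{m+n}`, and `x_0^{n+1} ≤ x_n z^n`, where `z > 0` is the invariant of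
`C(a - b, a - b)`.
(4) Let `a ≥ b ≥ 1`, `n ≥ 0` and `ε > 0`.  For all large odd `N`,
`(n + 1) G(a) - n G(a - b) - ε ≤ (2 π / N) log |⟨C(a, b^{2n}, a)⟩_N| ≤ G(a) + n V(b) + ε`.
(5) If `C(a, b^{2n}, a)` is a knot then its Kashaev invariant (with its orientation, without any
indeterminacy) is equal to the positive number in (3), so that `(2 π / N) Log ⟨K⟩_N` (principal
branch) has the imaginary part `0`. -/
theorem result :
    (∀ (N : ℕ) (D : Diagram) (o : ℕ → List Bool), 1 ≤ N →
      ContinuousAt (jones N D) (root N) ∧ ContinuousAt (knotJones N D o) (root N)) ∧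
    (∀ a : ℕ, 4 ≤ a →
      IsGreatest {W : ℝ | ∃ w : ℤ → ℝ, IsAngle a w ∧ vol a w = W} (V a) ∧
      IsGreatest {W : ℝ | ∃ w : ℕ → ℝ, IsTbAngle a w ∧ tbVol a w = W} (G a)) ∧
    (∀ N : ℕ, 1 ≤ N → ∀ a b : ℕ, b ≤ a → ∃ (x : ℕ → ℝ) (z : ℝ), 0 < z ∧
      value (twoBridge [a - b, a - b]) N = z ∧
      (∀ n : ℕ, 0 < x n ∧ value (twoBridge (a :: List.replicate (2 * n) b ++ [a])) N = x n) ∧
      (∀ m n : ℕ, x m * x n ≤ x 0 * x (m + n)) ∧ ∀ n : ℕ, x 0 ^ (n + 1) ≤ x n * z ^ n) ∧
    (∀ a b n : ℕ, 1 ≤ b → b ≤ a → ∀ ε : ℝ, 0 < ε → ∀ᶠ N : ℕ in atTop, Odd N → 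
      (n + 1) * G a - n * G (a - b) - ε ≤ 2 * Real.pi *
        (Real.log ‖value (twoBridge (a :: List.replicate (2 * n) b ++ [a])) N‖ / N) ∧
      2 * Real.pi *
        (Real.log ‖value (twoBridge (a :: List.replicate (2 * n) b ++ [a])) N‖ / N) ≤
          G a + n * V b + ε) ∧
    (∀ a b n : ℕ, b ≤ a → OneComponent (twoBridge (a :: List.replicate (2 * n) b ++ [a])) →
      ∀ o, IsOrientation (twoBridge (a :: List.replicate (2 * n) b ++ [a])) o →
        ∀ N : ℕ, 1 ≤ N → kashaev (twoBridge (a :: List.replicate (2 * n) b ++ [a])) o N =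
            value (twoBridge (a :: List.replicate (2 * n) b ++ [a])) N ∧
          (2 * Real.pi * (Complex.log (kashaev (twoBridge (a :: List.replicate (2 * n) b ++ [a]))
            o N) / N)).im = 0) := by
  have key : ∀ N : ℕ, 1 ≤ N → ∀ a b : ℕ, b ≤ a → ∃ (x : ℕ → ℝ) (z : ℝ), 0 < z ∧
      value (twoBridge [a - b, a - b]) N = z ∧
      (∀ n : ℕ, 0 < x n ∧ value (twoBridge (a :: List.replicate (2 * n) b ++ [a])) N = x n) ∧
      (∀ m n : ℕ, x m * x n ≤ x 0 * x (m + n)) ∧ ∀ n : ℕ, x 0 ^ (n + 1) ≤ x n * z ^ n := by
    intro N hN a b hb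
    obtain ⟨c, rfl⟩ : ∃ c, a = c + b := ⟨a - b, by omega⟩
    obtain ⟨x, h1, h2, h3, h4⟩ := Pool.Agent.R807.Pow3.pal_lower (N := N) hN c b
    refine ⟨x, Pool.Agent.R807.Pow3.X N c, Pool.Agent.R807.Pow3.X_pos N c, ?_,
      fun n => ⟨(h1 n).1, ?_⟩, h3, fun n => ?_⟩
    · rw [Nat.add_sub_cancel]
      exact X_value hN c
    · have e : value (twoBridge (palList (c + b) b n)) N = x n := by
        rw [value_eq, pal_tr]
        exact (h1 n).2
      exact e
    · rw [h2]
      exact h4 n
  refine ⟨fun N D o hN => ⟨?_, cont N D o hN⟩, fun a ha => ⟨(V_spec (by omega : 1 ≤ a)).2 ha,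
    (G_spec a).2.2 ha⟩, key, ?_, ?_⟩
  · rw [jones_eq]
    exact Pool.Agent.W613.QAT.cont (D.map tr) N hN
  · intro a b n hb hab ε hε
    obtain ⟨c, rfl⟩ : ∃ c, a = c + b := ⟨a - b, by omega⟩
    have h := Pool.Agent.R807.Pow3.two_sided (V := V) (fun a ha => (V_spec ha).1) (c := c) hb
      (G_spec (c + b)).1 (G_spec (c + b)).2.1 (G_spec c).1 n hε
    filter_upwards [h, eventually_gt_atTop 0] with N h1 hN _
    have e : value (twoBridge ((c + b) :: List.replicate (2 * n) b ++ [c + b])) N =
        Pool.Agent.W709.QAT.jones N (Pool.Agent.R807.Pow3.pal (c + b) b n)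
          (Pool.Agent.W715.VC.rt N) := by
      have := value_eq (twoBridge (palList (c + b) b n)) N
      rw [pal_tr] at this
      exact this
    rw [e, Nat.add_sub_cancel]
    exact log_two_sided hN h1.1 h1.2
  · intro a b n hab h1 o ho N hN
    have e0 : (a :: List.replicate (2 * n) b ++ [a] : List ℕ) =
        (a :: List.replicate n b) ++ (a :: List.replicate n b).reverse := pal_rev a b n
    obtain ⟨x, z, -, -, h2, -, -⟩ := key N hN a b hab
    obtain ⟨h3, h4⟩ := h2 n
    rw [e0] at h1 ho h4 ⊢
    have h5 := kashaev_value _ h1 ho N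
    refine ⟨h5, ?_⟩
    rw [h5, h4, ← Complex.ofReal_log h3.le]
    have e : (2 * (Real.pi : ℂ) * (((Real.log (x n) : ℝ) : ℂ) / (N : ℂ))) =
        ((2 * Real.pi * (Real.log (x n) / N) : ℝ) : ℂ) := by
      push_cast
      rfl
    rw [e, Complex.ofReal_im]

end Pool.Agent.Results.MP_b30479_gt.PalindromicTwoBridgeOdd
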